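import Pool.Agent.Helper70K1.PHS.Comb

/-! From refuted labellings of long lists to a short advice, for one length. -/

set_option autoImplicit false

namespace H70.PHS

/-- the strings of length `n` -/
def Str (n : ℕ) : Finset (List Bool) :=
  (Finset.univ : Finset (Fin n → Bool)).image List.ofFn

theorem mem_Str {n : ℕ} {x : List Bool} : x ∈ Str n ↔ x.length = n := by
  unfold Str
  rw [Finset.mem_image]
  constructor
  · rintro ⟨f, _, rfl⟩
    simp
  · intro h
    subst h
    exact ⟨fun i => x[i], Finset.mem_univ _, by simp⟩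

theorem card_Str (n : ℕ) : (Str n).card ≤ 2 ^ n :=
  Finset.card_image_le.trans (by simp)

theorem Str_nonempty (n : ℕ) : (Str n).Nonempty :=
  ⟨List.replicate n false, mem_Str.2 (by simp)⟩

/-- the lists of `j` strings of length `n` -/
def StrL (n j : ℕ) : Finset (List (List Bool)) :=
  (Finset.univ : Finset (Fin j → Fin n → Bool)).image (fun f => List.ofFn fun i => List.ofFn (f i))

theorem mem_StrL {n j : ℕ} {X : List (List Bool)} :
    X ∈ StrL n j ↔ X.length = j ∧ ∀ x ∈ X, x.length = n := by
  unfold StrL
  rw [Finset.mem_image]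
  constructor
  · rintro ⟨f, _, rfl⟩
    refine ⟨by simp, fun x hx => ?_⟩
    rw [List.mem_ofFn] at hx
    obtain ⟨i, rfl⟩ := hx
    simp
  · rintro ⟨h, h'⟩
    subst h
    refine ⟨fun i k => (X.get i)[k.1]'(by rw [h' _ (List.get_mem _ _)]; exact k.2),
      Finset.mem_univ _, ?_⟩
    apply List.ext_getElem (by simp)
    intro i h1 h2
    rw [List.getElem_ofFn]
    apply List.ext_getElem
    · rw [List.length_ofFn, h' _ (List.getElem_mem _)]
    · intro k h3 h4
      simp

theorem card_StrL (n j : ℕ) : (StrL n j).card ≤ 2 ^ (n * j) :=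
  Finset.card_image_le.trans (by simp [pow_mul])

/-- Together with known labelled strings from `T`, the labelled list `l` is refuted. -/
def Rel (Q : List (List Bool × Bool) → Prop) (T : List (List Bool × Bool)) (N : ℕ)
    (l : List (List Bool × Bool)) : Prop :=
  ∃ e : List (List Bool × Bool), (∀ a ∈ e, a ∈ T) ∧ l.length + e.length = N ∧ Q (l ++ e)

/-- the test for `x` with the help of `Y` -/
def Tst (Q : List (List Bool × Bool) → Prop) (T : List (List Bool × Bool)) (N : ℕ)
    (Y : List (List Bool)) (x : List Bool) : Prop :=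
  ∃ b : List Bool, b.length = Y.length ∧ Rel Q T N (Y.zip b ++ [(x, false)])

section

variable {L : Set (List Bool)} {Q : List (List Bool × Bool) → Prop} {n N : ℕ}

/-- the labels of `T` are right -/
def Right (L : Set (List Bool)) (n : ℕ) (T : List (List Bool × Bool)) : Prop :=
  ∀ a ∈ T, a.1.length = n ∧ (a.2 = true ↔ a.1 ∈ L)

/-- every list of length `j` has a refuted labelling -/
def Tot (Q : List (List Bool × Bool) → Prop) (T : List (List Bool × Bool)) (n N j : ℕ) : Prop :=
  ∀ X ∈ StrL n j, ∃ v : List Bool, v.length = j ∧ Rel Q T N (X.zip v)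

/-- `x` gets the opposite of its label in all refuted labellings -/
def Good (L : Set (List Bool)) (Q : List (List Bool × Bool) → Prop) (T : List (List Bool × Bool))
    (N : ℕ) (x : List Bool) (Y : List (List Bool)) : Prop :=
  ∀ (b : List Bool) (c : Bool), b.length = Y.length → Rel Q T N (Y.zip b ++ [(x, c)]) →
    ¬ (c = true ↔ x ∈ L)

theorem tst_iff {T : List (List Bool × Bool)} {j : ℕ} (hT : Tot Q T n N (j + 1)) {x : List Bool}
    (hx : x.length = n) {Y : List (List Bool)} (hY : Y ∈ StrL n j) (hg : Good L Q T N x Y) :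
    Tst Q T N Y x ↔ x ∈ L := by
  rw [mem_StrL] at hY
  constructor
  · rintro ⟨b, h1, h2⟩
    have h3 := hg b false h1 h2
    by_contra hc
    exact h3 ⟨fun h => absurd h (by simp), fun h => absurd h hc⟩
  · intro hxL
    obtain ⟨v, hv, hr⟩ := hT (Y ++ [x]) (mem_StrL.2 ⟨by simp [hY.1], by
      intro z hz
      rcases List.mem_append.1 hz with h | h
      · exact hY.2 z h
      · rw [List.mem_singleton.1 h]; exact hx⟩)
    have hv' : v = v.take j ++ [v[j]'(by omega)] := by
      apply List.ext_getElem
      · simp [hv]
      · intro i h1 h2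
        rcases Nat.lt_or_ge i j with h | h
        · rw [List.getElem_append_left (by simp [hv, h])]
          simp
        · have : i = j := by omega
          subst this
          rw [List.getElem_append_right (by simp)]
          simp
    have hl : (v.take j).length = Y.length := by simp [hv, hY.1]
    rw [hv', List.zip_append hl.symm] at hr
    have h3 := hg (v.take j) (v[j]'(by omega)) hl hr
    have h4 : v[j]'(by omega) = false := by
      by_contra hc
      rw [Bool.not_eq_false] at hc
      exact h3 ⟨fun _ => hxL, fun _ => hc⟩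
    rw [h4] at hr
    exact ⟨v.take j, hl, hr⟩

open Classical in
/-- the final advice -/
def Fin1 (L : Set (List Bool)) (Q : List (List Bool × Bool) → Prop) (n N : ℕ) : Prop :=
  ∃ (T : List (List Bool × Bool)) (ys : List (List (List Bool))),
    T.length ≤ N * (2 * (n * N) + 1) ∧ (∀ a ∈ T, a.1.length = n) ∧
    ys.length = 2 * (6 * n + 1) ∧ (∀ Y ∈ ys, Y.length ≤ N ∧ ∀ y ∈ Y, y.length = n) ∧
    ∀ x : List Bool, x.length = n →
      (x ∈ L ↔ ys.length < 2 * ys.countP (fun Y => decide (Tst Q T N Y x)))

open Classical in
theorem fin1_step {T : List (List Bool × Bool)} {j : ℕ} (hj : j + 1 ≤ N)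
    (hTl : T.length ≤ (N - (j + 1)) * (2 * (n * N) + 1)) (hR : Right L n T)
    (hT : Tot Q T n N (j + 1)) :
    Fin1 L Q n N ∨ ∃ T' : List (List Bool × Bool),
      T'.length ≤ (N - j) * (2 * (n * N) + 1) ∧ Right L n T' ∧ Tot Q T' n N j := by
  by_cases hW : ∀ w : List Bool → ℕ, 0 < ∑ x ∈ Str n, w x → ∃ Y ∈ (StrL n j : Set _),
      2 * ∑ x ∈ Str n, w x ≤ 3 * ∑ x ∈ Str n with Good L Q T N x Y, w x
  · left
    obtain ⟨ys, h1, h2, h3⟩ := exists_maj (Str n) (Str_nonempty n) (StrL n j : Set _)
      (Good L Q T N) hW n (card_Str n)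
    refine ⟨T, ys, hTl.trans (Nat.mul_le_mul_right _ (by omega)), fun a ha => (hR a ha).1, h1,
      fun Y hY => ?_, fun x hx => ?_⟩
    · have h4 := mem_StrL.1 (h2 Y hY)
      exact ⟨by omega, h4.2⟩
    · have h4 := h3 x (mem_Str.2 hx)
      have h5 : ∀ Y ∈ ys, Good L Q T N x Y → (Tst Q T N Y x ↔ x ∈ L) := fun Y hY hg =>
        tst_iff hT hx (h2 Y hY) hg
      constructor
      · intro hxL
        refine h4.trans_le (Nat.mul_le_mul_left _ ?_)
        apply List.countP_mono_left
        intro Y hY hg
        rw [decide_eq_true_eq] at hg ⊢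
        exact (h5 Y hY hg).2 hxL
      · intro h6
        by_contra hxL
        have h7 : ys.countP (fun Y => decide (Good L Q T N x Y)) ≤
            ys.countP (fun Y => !decide (Tst Q T N Y x)) := by
          apply List.countP_mono_left
          intro Y hY hg
          rw [decide_eq_true_eq] at hg
          rw [Bool.not_eq_true', decide_eq_false_iff_not]
          exact fun hc => hxL ((h5 Y hY hg).1 hc)
        have h8 := List.length_eq_countP_add_countP (fun Y => decide (Tst Q T N Y x)) (l := ys)
        have h9 : ys.countP (fun Y => !decide (Tst Q T N Y x)) =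
            ys.countP (fun Y => decide (¬ (decide (Tst Q T N Y x) = true))) := by
          congr 1
          funext Y
          by_cases h : Tst Q T N Y x <;> simp [h]
        omega
  · right
    push Not at hW
    obtain ⟨w, -, hw⟩ := hW
    obtain ⟨l, h1, h2, h3⟩ := exists_hit (Str n) w (fun x Y => ¬ Good L Q T N x Y)
      (2 * (n * N) + 1) (StrL n j) (by
        have h4 : (StrL n j).card ≤ 2 ^ (n * N) :=
          (card_StrL n j).trans (Nat.pow_le_pow_right (by norm_num)
            (Nat.mul_le_mul_left _ (by omega)))
        calc 2 ^ (2 * (n * N) + 1) * (StrL n j).card ≤ 2 ^ (2 * (n * N) + 1) * 2 ^ (n * N) :=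
              Nat.mul_le_mul_left _ h4
          _ = 2 * 8 ^ (n * N) := by
              rw [pow_succ, pow_mul, mul_right_comm, ← mul_pow]
              norm_num
              ring
          _ < 3 * 9 ^ (n * N) := by
              have h5 : (8 : ℕ) ^ (n * N) ≤ 9 ^ (n * N) := Nat.pow_le_pow_left (by norm_num) _
              have h6 : 0 < (8 : ℕ) ^ (n * N) := by positivity
              omega
          _ = 3 ^ (2 * (n * N) + 1) := by
              have h7 : (3 : ℕ) ^ (2 * (n * N) + 1) = 9 ^ (n * N) * 3 := by
                rw [pow_succ, pow_mul]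
                norm_num
              rw [h7, mul_comm]) (by
        intro Y hY
        have h4 := hw Y hY
        have h5 := Finset.sum_filter_add_sum_filter_not (Str n) (fun x => Good L Q T N x Y) w
        have h6 : ∑ x ∈ Str n, w x < 3 * ∑ x ∈ Str n with ¬ Good L Q T N x Y, w x := by
          clear hw
          omega
        convert h6)
    refine ⟨T ++ l.map (fun x => (x, decide (x ∈ L))), ?_, ?_, ?_⟩
    · rw [List.length_append, List.length_map]
      have h4 : N - j = (N - (j + 1)) + 1 := by omega
      rw [h4, add_mul, one_mul]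
      omega
    · intro a ha
      rcases List.mem_append.1 ha with h | h
      · exact hR a h
      · obtain ⟨x, hx, rfl⟩ := List.mem_map.1 h
        exact ⟨mem_Str.1 (h2 x hx), by simp⟩
    · intro Y hY
      obtain ⟨x, hx, hxY⟩ := h3 Y hY
      unfold Good at hxY
      push Not at hxY
      obtain ⟨b, c, hb, ⟨e, he1, he2, he3⟩, hc⟩ := hxY
      have hc' : c = decide (x ∈ L) := by
        rcases c with _ | _
        · simp at hc
          simp [hc]
        · simp at hc
          simp [hc]
      refine ⟨b, by rw [hb, (mem_StrL.1 hY).1], (x, c) :: e, ?_, ?_, ?_⟩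
      · intro a ha
        rcases List.mem_cons.1 ha with h | h
        · rw [h, hc']
          exact List.mem_append_right _ (List.mem_map_of_mem hx)
        · exact List.mem_append_left _ (he1 a h)
      · rw [List.length_append, List.length_singleton] at he2
        rw [List.length_cons]
        omega
      · rw [List.append_assoc] at he3
        exact he3

/-- Refuted labellings of all lists of length `N` give a short advice. -/
theorem exists_adv (sound : ∀ l : List (List Bool × Bool), (∀ e ∈ l, e.1.length = n) → Q l →
      ∃ e ∈ l, ¬ (e.2 = true ↔ e.1 ∈ L))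
    (total : ∀ X : List (List Bool), (∀ x ∈ X, x.length = n) → X.length = N →
      ∃ v : List Bool, v.length = N ∧ Q (X.zip v)) : Fin1 L Q n N := by
  have key : ∀ i ≤ N, Fin1 L Q n N ∨ ∃ T : List (List Bool × Bool),
      T.length ≤ (N - (N - i)) * (2 * (n * N) + 1) ∧ Right L n T ∧ Tot Q T n N (N - i) := by
    intro i
    induction i with
    | zero =>
      intro _
      right
      refine ⟨[], by simp, by intro a ha; simp at ha, fun X hX => ?_⟩
      rw [Nat.sub_zero, mem_StrL] at hX
      obtain ⟨v, hv, hQ⟩ := total X hX.2 hX.1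
      refine ⟨v, by simpa using hv, [], by simp, ?_, by simpa using hQ⟩
      rw [List.length_zip, hv, hX.1]
      simp
    | succ i ih =>
      intro hi
      rcases ih (by omega) with h | ⟨T, h1, h2, h3⟩
      · exact Or.inl h
      · have e1 : N - i = (N - (i + 1)) + 1 := by omega
        rw [e1] at h1 h3
        exact fin1_step (by omega) h1 h2 h3
  rcases key N le_rfl with h | ⟨T, -, h2, h3⟩
  · exact h
  · exfalso
    rw [Nat.sub_self] at h3
    obtain ⟨v, hv, e, he1, he2, he3⟩ := h3 [] (mem_StrL.2 (by simp))
    rw [List.zip_nil_left, List.nil_append] at he3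
    obtain ⟨a, ha, ha'⟩ := sound e (fun a ha => (h2 a (he1 a ha)).1) he3
    exact ha' (h2 a (he1 a ha)).2

end

end H70.PHS
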