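import Pool.Agent.Helper70K1.PHS.Gen

/-! Membership comparability with polynomially many strings. -/

set_option autoImplicit false

namespace H70.PHS

open Pool.Agent.NPC Pool.Agent.H622R2 Pool.Agent.H620R2.Gauge Pool.Agent.Helper67.PHP

/-- decode a labelled list -/
def dLab (c : List Bool) : List (List Bool × Bool) :=
  (unbits (List (List Bool × Bool)) c).getD []

theorem poly_dLab : Poly dLab := Poly.optGetD poly_unbits (Pool.Agent.NPC.Poly.const _)

theorem dLab_bits (l : List (List Bool × Bool)) : dLab (bits l) = l := by
  unfold dLab
  rw [unbits_bits]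
  rfl

/-- two labels for the same string -/
def incons (l : List (List Bool × Bool)) : Bool :=
  l.any fun e => l.any fun e' => decide (e.1 = e'.1) && (e.2 ^^ e'.2)

theorem poly_incons : Poly incons := by
  refine Poly.any (l := fun l : List (List Bool × Bool) => l)
    (p := fun l e => l.any fun e' => decide (e.1 = e'.1) && (e.2 ^^ e'.2)) Poly.id ?_
  refine Poly.any (l := fun p : List (List Bool × Bool) × (List Bool × Bool) => p.1)
    (p := fun p e' => decide (p.2.1 = e'.1) && (p.2.2 ^^ e'.2)) (Poly.fst Poly.id) ?_
  exact Poly.and (Poly.decide_eq (Poly.fst (Poly.snd (Poly.fst Poly.id)))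
    (Poly.fst (Poly.snd Poly.id))) (Poly.xor (Poly.snd (Poly.snd (Poly.fst Poly.id)))
    (Poly.snd (Poly.snd Poly.id)))

/-- the labels of `l` are inconsistent or refuted -/
def QA (L' : Set (List Bool)) (a : List Bool × List (List Bool × Bool)) : Prop :=
  incons a.2 = true ∨ ∃ c : List Bool, c.length ≤ (dP a.1).2.2.length ∧
    ((((dLab c).all fun e => decide (e ∈ a.2)) && decide (bits (dLab c) = c)) = true ∧
      pairBits c ((dP a.1).1.getD c.length []) ∈ L')

theorem ph_QA {A : Oracle} {L' : Set (List Bool)} (hL' : IsPH A L') : PHt A (QA L') := by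
  have hc : Poly (fun v : List Bool × List Bool × List (List Bool × Bool) => v.1) :=
    Poly.fst Poly.id
  have hg : Poly (fun v : List Bool × List Bool × List (List Bool × Bool) => dP v.2.1) :=
    poly_dP.comp (Poly.fst (Poly.snd Poly.id))
  have hl : Poly (fun v : List Bool × List Bool × List (List Bool × Bool) => v.2.2) :=
    Poly.snd (Poly.snd Poly.id)
  have h1 : Poly (fun v : List Bool × List Bool × List (List Bool × Bool) =>
      (dLab v.1).all fun e => decide (e ∈ v.2.2)) := by
    refine Poly.all (p := fun (v : List Bool × List Bool × List (List Bool × Bool)) e =>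
      decide (e ∈ v.2.2)) (poly_dLab.comp hc) ?_
    exact (Poly.decide_mem (Poly.snd Poly.id) (hl.comp (Poly.fst Poly.id))).congr
      fun _ => by congr
  have h2 : Poly (fun v : List Bool × List Bool × List (List Bool × Bool) =>
      decide (bits (dLab v.1) = v.1)) := Poly.decide_eq (poly_code (poly_dLab.comp hc)) hc
  have p1 : PHt A (fun v : List Bool × List Bool × List (List Bool × Bool) =>
      (((dLab v.1).all fun e => decide (e ∈ v.2.2)) && decide (bits (dLab v.1) = v.1)) = true) :=
    PHt.ofPoly (Poly.and h1 h2)
  have p2 : PHt A (fun v : List Bool × List Bool × List (List Bool × Bool) =>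
      pairBits v.1 ((dP v.2.1).1.getD v.1.length []) ∈ L') :=
    (PHt.of_isPH hL').pre (f := fun v : List Bool × List Bool × List (List Bool × Bool) =>
      pairBits v.1 ((dP v.2.1).1.getD v.1.length []))
      (poly_pairBits hc (Poly.getD (Poly.fst hg) (Poly.length hc)
        (Pool.Agent.NPC.Poly.const [])))
  have p3 := (p1.and p2).ex (b := fun a : List Bool × List (List Bool × Bool) =>
    (dP a.1).2.2.length) (UPoly.length (Poly.snd (Poly.snd (poly_dP.comp (Poly.fst Poly.id)))))
  have p4 : PHt A (fun a : List Bool × List (List Bool × Bool) => incons a.2 = true) :=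
    PHt.ofPoly (poly_incons.comp (Poly.snd Poly.id))
  exact p4.or p3

theorem getD_range' {h : ℕ → List Bool} {B : ℕ} {c : List Bool} (hi : c.length ≤ B) :
    ((List.range (B + 1)).map h).getD c.length [] = h c.length :=
  getD_range (Nat.lt_succ_of_le hi)

theorem exists_dup {X : List (List Bool)} (h : ¬ X.Nodup) : ∃ i j : ℕ, i < X.length ∧
    j < X.length ∧ i ≠ j ∧ X[i]? = X[j]? := by
  rw [List.nodup_iff_injective_get] at h
  unfold Function.Injective at h
  push Not at h
  obtain ⟨i, j, h1, h2⟩ := h
  refine ⟨i, j, i.2, j.2, fun h3 => h2 (Fin.ext h3), ?_⟩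
  rw [List.getElem?_eq_getElem i.2, List.getElem?_eq_getElem j.2]
  exact congrArg some h1

/-- Refuted labellings among polynomially many strings give the hierarchy with advice. -/
theorem phpoly_of_all {A : Oracle} {L R : Set (List Bool)} (hR : IsPHpoly A R)
    (hRef : Refutes L R) {P : Polynomial ℕ} (hD : ∀ m, Dense R m (P.eval m) (P.eval m)) :
    IsPHpoly A L := by
  classical
  obtain ⟨L', h, p, hL', hh, hx⟩ := hR
  let B : ℕ → ℕ := fun n => P.eval n * (4 * n + 6) + 1
  let pB : Polynomial ℕ := P * (Polynomial.C 4 * Polynomial.X + Polynomial.C 6) + Polynomial.C 1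
  have hB : ∀ n, pB.eval n = B n := by
    intro n
    simp only [pB, B, Polynomial.eval_add, Polynomial.eval_mul, Polynomial.eval_C,
      Polynomial.eval_X]
  refine phpoly_of_mc (Q := QA L') (ph_QA hL') (fun n => par h (B n) 0 (B n))
    ((pB + Polynomial.C 1) * (Polynomial.C 4 * p.comp pB + Polynomial.C 2) + Polynomial.C 1 +
      (Polynomial.C 1 + (Polynomial.C 4 * pB + Polynomial.C 1) + Polynomial.C 1) + Polynomial.C 1)
    (fun n => ?_) (fun n => P.eval n) P (fun n => le_rfl) (fun n l _ hl => ?_)
    (fun n X hX hXl => ?_)
  · unfold par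
    rw [bits_length, sz_pair, sz_pair]
    have e2 := sz_listBool_le (List.replicate (B n) false)
    rw [List.length_replicate] at e2
    have e3 : sz ((List.range (B n + 1)).map h) ≤ (B n + 1) * (4 * p.eval (B n) + 1 + 1) + 1 := by
      refine (sz_le_length_mul _ (4 * p.eval (B n) + 1) ?_).trans ?_
      · intro a ha
        obtain ⟨i, hi, rfl⟩ := List.mem_map.1 ha
        rw [List.mem_range] at hi
        have e1 := sz_listBool_le (h i)
        have e2 := hh i
        have e3 : p.eval i ≤ p.eval (B n) := eval_mono p (by omega)
        omega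
      · rw [List.length_map, List.length_range]
    have e4 : sz (List.replicate 0 false) = 1 := rfl
    rw [e4]
    simp only [Polynomial.eval_add, Polynomial.eval_mul, Polynomial.eval_C, Polynomial.eval_comp,
      hB]
    have e5 : (B n + 1) * (4 * p.eval (B n) + 1 + 1) = (B n + 1) * (4 * p.eval (B n) + 2) := by
      ring
    omega
  · rcases hl with hl | ⟨c, h1, h2, h3⟩
    · unfold incons at hl
      simp only [List.any_eq_true, Bool.and_eq_true, decide_eq_true_eq] at hl
      obtain ⟨e, he, e', he', h1, h2⟩ := hl
      by_contra hc
      push Not at hc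
      have h3 := hc e he
      have h4 := hc e' he'
      rw [h1] at h3
      have h5 : e.2 = e'.2 := Bool.eq_iff_iff.2 (h3.trans h4.symm)
      rw [h5] at h2
      simp at h2
    · simp only [dP_par, List.length_replicate] at h1 h3
      rw [getD_range' h1, ← hx] at h3
      simp only [Bool.and_eq_true, decide_eq_true_eq, List.all_eq_true] at h2
      rw [← h2.2] at h3
      obtain ⟨e, he, he'⟩ := hRef _ h3
      exact ⟨e, h2.1 e he, he'⟩
  · by_cases hn : X.Nodup
    · obtain ⟨l, hl1, hl2, hl3, hl4⟩ := hD n X.toFinset (by
        intro u hu
        exact hX u (List.mem_toFinset.1 hu)) (by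
        rw [List.toFinset_card_of_nodup hn, hXl])
      refine ⟨X.map (fun x => decide ((x, true) ∈ l)), by simpa using hXl, Or.inr ⟨bits l, ?_, ?_,
        ?_⟩⟩
      · rw [dP_par, List.length_replicate, bits_length]
        refine (sz_lab_le l (n := n) fun e he => hX _ (List.mem_toFinset.1 (hl3 e he))).trans ?_
        exact Nat.add_le_add_right (Nat.mul_le_mul_right _ hl1) 1
      · rw [dLab_bits]
        simp only [decide_true, Bool.and_true, List.all_eq_true, decide_eq_true_eq]
        intro e he
        have h1 : e = (e.1, decide ((e.1, true) ∈ l)) := by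
          refine Prod.ext rfl ?_
          simp only
          by_cases hc : (e.1, true) ∈ l
          · have h2 : e = (e.1, true) := List.inj_on_of_nodup_map hl2 he hc rfl
            rw [decide_eq_true hc, h2]
          · rw [decide_eq_false hc]
            by_contra h3
            rw [Bool.not_eq_false] at h3
            apply hc
            rw [← h3]
            exact he
        have h2 : e.1 ∈ X := List.mem_toFinset.1 (hl3 e he)
        rw [h1]
        have h3 : X.zip (X.map (fun x => decide ((x, true) ∈ l))) =
            X.map (fun x => (x, decide ((x, true) ∈ l))) := by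
          conv_lhs => rw [← List.map_id X]
          rw [List.map_id, List.zip_map_right, ]
          apply List.ext_getElem <;> simp
        rw [h3]
        exact List.mem_map_of_mem (f := fun x => (x, decide ((x, true) ∈ l))) h2
      · rw [dP_par]
        have h1 : (bits l).length ≤ B n := by
          rw [bits_length]
          refine (sz_lab_le l (n := n) fun e he => hX _ (List.mem_toFinset.1 (hl3 e he))).trans ?_
          exact Nat.add_le_add_right (Nat.mul_le_mul_right _ hl1) 1
        simp only
        rw [getD_range' h1, ← hx]
        exact hl4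
    · obtain ⟨i, j, hi, hj, hij, hXij⟩ := exists_dup hn
      refine ⟨(List.range X.length).map (fun k => decide (k = i)), by simpa using hXl,
        Or.inl ?_⟩
      unfold incons
      simp only [List.any_eq_true, Bool.and_eq_true, decide_eq_true_eq]
      rw [List.getElem?_eq_getElem hi, List.getElem?_eq_getElem hj, Option.some.injEq] at hXij
      have hm : ∀ k (hk : k < X.length), (X[k], decide (k = i)) ∈
          X.zip ((List.range X.length).map (fun k => decide (k = i))) := by
        intro k hk
        have h1 : (X.zip ((List.range X.length).map (fun k => decide (k = i))))[k]'(by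
            simpa using hk) = (X[k], decide (k = i)) := by simp
        rw [← h1]
        exact List.getElem_mem _
      refine ⟨_, hm i hi, _, hm j hj, hXij, ?_⟩
      simp [hij.symm]

end H70.PHS
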