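import Mathlib

/-! Combinatorial lemmas: greedy hitting sets, majorities, sets of vectors without short relations. -/

set_option autoImplicit false

namespace H70.PHS

open Finset

open Classical in
/-- If every `y` in `S` is hit by more than a third of the weight, then few points hit all. -/
theorem exists_hit {X Y : Type*} (P : Finset X) (w : X → ℕ) (H : X → Y → Prop) :
    ∀ (k : ℕ) (S : Finset Y), 2 ^ k * S.card < 3 ^ k →
      (∀ y ∈ S, ∑ x ∈ P, w x < 3 * ∑ x ∈ P with H x y, w x) →
      ∃ l : List X, l.length ≤ k ∧ (∀ x ∈ l, x ∈ P) ∧ ∀ y ∈ S, ∃ x ∈ l, H x y := by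
  intro k
  induction k with
  | zero =>
    intro S hS _
    have h0 : S = ∅ := by
      rw [← Finset.card_eq_zero]
      simpa using hS
    exact ⟨[], le_rfl, by simp, by simp [h0]⟩
  | succ k ih =>
    intro S hS hH
    rcases S.eq_empty_or_nonempty with h0 | h0
    · exact ⟨[], Nat.zero_le _, by simp, by simp [h0]⟩
    -- a good point
    obtain ⟨x, hxP, hx⟩ : ∃ x ∈ P, S.card < 3 * (S.filter (fun y => H x y)).card := by
      by_contra hc
      push Not at hc
      have h1 : ∑ y ∈ S, ∑ x ∈ P, w x < ∑ y ∈ S, 3 * ∑ x ∈ P with H x y, w x :=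
        Finset.sum_lt_sum_of_nonempty h0 hH
      have h2 : ∑ y ∈ S, 3 * ∑ x ∈ P with H x y, w x =
          ∑ x ∈ P, w x * (3 * (S.filter (fun y => H x y)).card) := by
        rw [← Finset.mul_sum]
        simp_rw [Finset.sum_filter]
        rw [Finset.sum_comm, Finset.mul_sum]
        apply Finset.sum_congr rfl
        intro x _
        rw [← Finset.sum_filter, Finset.sum_const, smul_eq_mul]
        ring
      have h3 : ∑ x ∈ P, w x * (3 * (S.filter (fun y => H x y)).card) ≤
          ∑ x ∈ P, w x * S.card := Finset.sum_le_sum fun x hx => Nat.mul_le_mul_left _ (hc x hx)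
      rw [h2, Finset.sum_const, smul_eq_mul] at h1
      rw [← Finset.sum_mul] at h3
      rw [mul_comm (S.card)] at h1
      omega
    have h4 : (S.filter (fun y => H x y)).card + (S.filter (fun y => ¬ H x y)).card = S.card :=
      Finset.card_filter_add_card_filter_not _
    obtain ⟨l, hl1, hl2, hl3⟩ := ih (S.filter (fun y => ¬ H x y)) (by
      rw [pow_succ, pow_succ] at hS
      have h5 : 3 * (S.filter (fun y => ¬ H x y)).card ≤ 2 * S.card := by omega
      have h6 : 2 ^ k * (3 * (S.filter (fun y => ¬ H x y)).card) ≤ 2 ^ k * (2 * S.card) :=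
        Nat.mul_le_mul_left _ h5
      nlinarith) (fun y hy => hH y (Finset.mem_filter.1 hy).1)
    refine ⟨x :: l, by simpa using hl1, ?_, ?_⟩
    · intro z hz
      rcases List.mem_cons.1 hz with h | h
      · rw [h]; exact hxP
      · exact hl2 z h
    · intro y hy
      by_cases hxy : H x y
      · exact ⟨x, List.mem_cons_self .., hxy⟩
      · obtain ⟨z, hz, hzy⟩ := hl3 y (Finset.mem_filter.2 ⟨hy, hxy⟩)
        exact ⟨z, List.mem_cons_of_mem _ hz, hzy⟩

open Classical in
/-- the potential -/
noncomputable def pot {X Y : Type*} (H : X → Y → Prop) (l : List Y) (x : X) : ℕ :=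
  2 ^ (l.length - l.countP (fun y => decide (H x y)))

open Classical in
/-- If for all weights some `y` is right for two thirds, then a short list is right by majority. -/
theorem exists_maj {X Y : Type*} (P : Finset X) (hP0 : P.Nonempty) (D : Set Y) (H : X → Y → Prop)
    (h : ∀ w : X → ℕ, 0 < ∑ x ∈ P, w x →
      ∃ y ∈ D, 2 * ∑ x ∈ P, w x ≤ 3 * ∑ x ∈ P with H x y, w x) (n : ℕ) (hP : P.card ≤ 2 ^ n) :
    ∃ l : List Y, l.length = 2 * (6 * n + 1) ∧ (∀ y ∈ l, y ∈ D) ∧
      ∀ x ∈ P, l.length < 2 * l.countP (fun y => decide (H x y)) := by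
  have key : ∀ T : ℕ, ∃ l : List Y, l.length = T ∧ (∀ y ∈ l, y ∈ D) ∧
      3 ^ T * ∑ x ∈ P, pot H l x ≤ P.card * 4 ^ T := by
    intro T
    induction T with
    | zero => exact ⟨[], rfl, by simp, by simp [pot]⟩
    | succ T ih =>
      obtain ⟨l, h1, h2, h3⟩ := ih
      obtain ⟨y, hy, hy'⟩ := h (pot H l) (Finset.sum_pos (fun x _ => by unfold pot; positivity) hP0)
      refine ⟨y :: l, by simp [h1], ?_, ?_⟩
      · intro z hz
        rcases List.mem_cons.1 hz with h | h
        · rw [h]; exact hy
        · exact h2 z h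
      have e1 : ∀ x, pot H (y :: l) x + (if H x y then pot H l x else 0) = 2 * pot H l x := by
        intro x
        have hle : l.countP (fun y => decide (H x y)) ≤ l.length := List.countP_le_length
        unfold pot
        rw [List.length_cons, List.countP_cons]
        by_cases hxy : H x y
        · simp only [hxy, decide_true, if_true]
          rw [Nat.add_sub_add_right]
          ring
        · simp only [hxy, decide_false, if_false, Bool.false_eq_true, add_zero]
          rw [Nat.sub_add_comm hle, pow_succ]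
          ring
      have e2 : ∑ x ∈ P, pot H (y :: l) x + ∑ x ∈ P with H x y, pot H l x =
          2 * ∑ x ∈ P, pot H l x := by
        rw [Finset.sum_filter, ← Finset.sum_add_distrib, Finset.mul_sum]
        exact Finset.sum_congr rfl fun x _ => e1 x
      have e3 : 3 * ∑ x ∈ P, pot H (y :: l) x ≤ 4 * ∑ x ∈ P, pot H l x := by omega
      calc 3 ^ (T + 1) * ∑ x ∈ P, pot H (y :: l) x = 3 ^ T * (3 * ∑ x ∈ P, pot H (y :: l) x) := by
            ring
        _ ≤ 3 ^ T * (4 * ∑ x ∈ P, pot H l x) := Nat.mul_le_mul_left _ e3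
        _ = 4 * (3 ^ T * ∑ x ∈ P, pot H l x) := by ring
        _ ≤ 4 * (P.card * 4 ^ T) := Nat.mul_le_mul_left _ h3
        _ = P.card * 4 ^ (T + 1) := by ring
  obtain ⟨l, h1, h2, h3⟩ := key (2 * (6 * n + 1))
  refine ⟨l, h1, h2, fun x hx => ?_⟩
  by_contra hc
  push Not at hc
  set c := l.countP (fun y => decide (H x y)) with hcdef
  have h4 : 2 ^ (6 * n + 1) ≤ pot H l x := by
    unfold pot
    apply Nat.pow_le_pow_right (by norm_num)
    omega
  have h5 : pot H l x ≤ ∑ x ∈ P, pot H l x :=
    Finset.single_le_sum (f := fun x => pot H l x) (fun _ _ => Nat.zero_le _) hx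
  have h6 : 3 ^ (2 * (6 * n + 1)) * 2 ^ (6 * n + 1) ≤ 2 ^ n * 4 ^ (2 * (6 * n + 1)) :=
    (Nat.mul_le_mul_left _ (h4.trans h5)).trans (h3.trans (Nat.mul_le_mul_right _ hP))
  have e1 : 3 ^ (2 * (6 * n + 1)) * 2 ^ (6 * n + 1) = 18 * 34012224 ^ n := by
    rw [pow_mul, ← mul_pow, pow_succ, pow_mul]
    norm_num
    ring
  have e2 : 2 ^ n * 4 ^ (2 * (6 * n + 1)) = 16 * 33554432 ^ n := by
    have : (33554432 : ℕ) = 2 * 16 ^ 6 := by norm_num
    rw [this, mul_pow, ← pow_mul, pow_mul 4 2, pow_succ]
    norm_num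
    ring
  rw [e1, e2] at h6
  have h7 : (33554432 : ℕ) ^ n ≤ 34012224 ^ n := Nat.pow_le_pow_left (by norm_num) n
  have h8 : 0 < (33554432 : ℕ) ^ n := by positivity
  omega

open scoped Pointwise in
theorem sum_mem_nsmul {V : Type*} [AddCommMonoid V] [DecidableEq V] (A : Finset V)
    (h0 : (0 : V) ∈ A) : ∀ (r : ℕ) (S : Finset V), S ⊆ A → S.card ≤ r → ∑ w ∈ S, w ∈ r • A := by
  intro r
  induction r with
  | zero =>
    intro S _ hr
    have : S = ∅ := Finset.card_eq_zero.1 (Nat.le_zero.1 hr)
    rw [this]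
    simp
  | succ r ih =>
    intro S hS hr
    rw [succ_nsmul]
    rcases S.eq_empty_or_nonempty with h | ⟨w, hw⟩
    · have h1 := ih S hS (by rw [h]; simp)
      have := Finset.add_mem_add h1 h0
      rwa [add_zero] at this
    · have h1 := ih (S.erase w) ((Finset.erase_subset _ _).trans hS) (by
        rw [Finset.card_erase_of_mem hw]; omega)
      have := Finset.add_mem_add h1 (hS hw)
      rwa [Finset.sum_erase_add _ _ hw] at this

theorem add_self_zmod {N : ℕ} (v : Fin N → ZMod 2) : v + v = 0 := by
  funext i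
  exact CharTwo.add_self_eq_zero (v i)

open scoped Pointwise in
/-- `2 ^ t` vectors without relations between at most `q` of them (Gilbert and Varshamov) -/
theorem exists_vectors {q t N : ℕ} (hN : t * q < N) (hq : 1 ≤ q) : ∀ j ≤ 2 ^ t,
    ∃ G : Finset (Fin N → ZMod 2), G.card = j ∧
      ∀ S ⊆ G, S.Nonempty → S.card ≤ q → ∑ w ∈ S, w ≠ 0 := by
  intro j
  induction j with
  | zero =>
    intro _
    refine ⟨∅, rfl, fun S hS hS' => ?_⟩
    rw [Finset.subset_empty.1 hS] at hS'
    exact absurd hS' (by simp)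
  | succ j ih =>
    intro hj
    obtain ⟨G, hG, hG'⟩ := ih (by omega)
    set A : Finset (Fin N → ZMod 2) := insert 0 G with hA
    have h0 : (0 : Fin N → ZMod 2) ∈ A := Finset.mem_insert_self _ _
    have hcard : (q • A).card < (Finset.univ : Finset (Fin N → ZMod 2)).card := by
      calc (q • A).card ≤ A.card ^ q := Finset.card_nsmul_le
        _ ≤ (2 ^ t) ^ q := Nat.pow_le_pow_left (by
            have h9 := Finset.card_insert_le (0 : Fin N → ZMod 2) G
            rw [← hA] at h9
            omega) q
        _ = 2 ^ (t * q) := by rw [← pow_mul]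
        _ < 2 ^ N := Nat.pow_lt_pow_right (by norm_num) hN
        _ = _ := by simp [ZMod.card]
    obtain ⟨v, -, hv⟩ := Finset.exists_mem_notMem_of_card_lt_card hcard
    have hGA : G ⊆ A := Finset.subset_insert _ _
    have hvG : v ∉ G := by
      intro h
      apply hv
      have := sum_mem_nsmul A h0 q {v} (by simpa using hGA h) (by simpa using hq)
      simpa using this
    refine ⟨insert v G, by rw [Finset.card_insert_of_notMem hvG, hG], fun S hS hS0 hSq hsum => ?_⟩
    by_cases hvS : v ∈ S
    · apply hv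
      have h1 := sum_mem_nsmul A h0 q (S.erase v) (by
        intro w hw
        rw [Finset.mem_erase] at hw
        have := hS hw.2
        rw [Finset.mem_insert] at this
        exact hGA (this.resolve_left hw.1)) (by
        rw [Finset.card_erase_of_mem hvS]; omega)
      have h2 : v = ∑ w ∈ S.erase v, w := by
        have h3 := Finset.sum_erase_add S (fun w => w) hvS
        rw [hsum] at h3
        have h4 := add_self_zmod v
        calc v = v + (∑ w ∈ S.erase v, w + v) := by rw [h3, add_zero]
          _ = ∑ w ∈ S.erase v, w + (v + v) := by abel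
          _ = _ := by rw [h4, add_zero]
      rw [h2]
      exact h1
    · refine hG' S ?_ hS0 hSq hsum
      intro w hw
      have := hS hw
      rw [Finset.mem_insert] at this
      exact this.resolve_left (fun h => hvS (h ▸ hw))

/-- Vectors without relations can have arbitrary products with a vector. -/
theorem exists_sol {N : ℕ} (S : Finset (Fin N → ZMod 2))
    (hS : ∀ T ⊆ S, T.Nonempty → ∑ w ∈ T, w ≠ 0) (b : (Fin N → ZMod 2) → ZMod 2) :
    ∃ v : Fin N → ZMod 2, ∀ w ∈ S, ∑ i, w i * v i = b w := by
  classical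
  have hli : LinearIndependent (ZMod 2) (fun w : S => (w : Fin N → ZMod 2)) := by
    rw [Fintype.linearIndependent_iff]
    intro g hg i
    by_contra hi
    have h1 : ∀ c : ZMod 2, c ≠ 0 → c = 1 := by decide
    set T : Finset (Fin N → ZMod 2) :=
      (Finset.univ.filter (fun w : S => g w ≠ 0)).map (Function.Embedding.subtype _) with hT
    apply hS T
    · intro w hw
      rw [hT, Finset.mem_map] at hw
      obtain ⟨w', _, rfl⟩ := hw
      exact w'.2
    · exact ⟨i.1, by rw [hT, Finset.mem_map]; exact ⟨i, by simpa using hi, rfl⟩⟩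
    · rw [hT, Finset.sum_map, Finset.sum_filter]
      refine Eq.trans ?_ hg
      apply Finset.sum_congr rfl
      intro w _
      by_cases hw : g w = 0
      · simp [hw]
      · rw [if_pos hw, h1 _ hw]
        simp
  obtain ⟨φ, hφ⟩ := LinearMap.exists_leftInverse_of_injective
    (Finsupp.linearCombination (ZMod 2) (fun w : S => (w : Fin N → ZMod 2)))
    (LinearMap.ker_eq_bot.2 hli)
  let f : (Fin N → ZMod 2) →ₗ[ZMod 2] ZMod 2 :=
    (Finsupp.linearCombination (ZMod 2) (fun w : S => b w)).comp φ
  refine ⟨fun i => f (Pi.single i 1), fun w hw => ?_⟩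
  have h2 : f w = b w := by
    have h3 : w = Finsupp.linearCombination (ZMod 2) (fun w : S => (w : Fin N → ZMod 2))
        (Finsupp.single (⟨w, hw⟩ : S) 1) := by simp
    have h4 := LinearMap.congr_fun hφ (Finsupp.single (⟨w, hw⟩ : S) 1)
    rw [LinearMap.comp_apply, ← h3, LinearMap.id_apply] at h4
    show Finsupp.linearCombination (ZMod 2) (fun w : S => b w) (φ w) = b w
    rw [h4]
    simp
  rw [← h2]
  conv_rhs => rw [← Finset.univ_sum_single w]
  rw [map_sum]
  apply Finset.sum_congr rfl
  intro i _
  have h5 : (Pi.single i (w i) : Fin N → ZMod 2) = w i • Pi.single i 1 := by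
    rw [← Pi.single_smul, smul_eq_mul, mul_one]
  rw [h5, map_smul, smul_eq_mul]

end H70.PHS
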