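import Pool.Agent.H620R2.Gauge.Defs

/-!
# Refuted labellings

`IsPH`, `IsPSPACE`, `IsPHpoly` (relative to an oracle) are those of `Pool.Agent.H620R2.Gauge`.
-/

set_option autoImplicit false

namespace H70.PHS

open Pool.Agent.NPC Pool.Agent.H620R2.Gauge

/-- The set `R` of codes refutes labellings for `K`: whenever `R` contains the code of a list `l`
of strings with labels, then some of these labels is wrong, that is, not the truth value of `u ∈ K`
for its string `u`. -/
def Refutes (K R : Set (List Bool)) : Prop :=
  ∀ l : List (List Bool × Bool), bits l ∈ R → ∃ e ∈ l, ¬ (e.2 = true ↔ e.1 ∈ K)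

/-- Among any `s` strings of length `m` there are at most `q` different ones for which `R` contains
a labelling. -/
def Dense (R : Set (List Bool)) (m q s : ℕ) : Prop :=
  ∀ W : Finset (List Bool), (∀ u ∈ W, u.length = m) → s ≤ W.card →
    ∃ l : List (List Bool × Bool), l.length ≤ q ∧ (l.map Prod.fst).Nodup ∧ (∀ e ∈ l, e.1 ∈ W) ∧
      bits l ∈ R

/-- For strings of the same length, the value of `f` determines membership in `K`. -/
def Decides (K : Set (List Bool)) (f : List Bool → List Bool) : Prop :=
  ∀ x y : List Bool, x.length = y.length → f x = f y → (x ∈ K ↔ y ∈ K)

/-- The messages of the second player after `0, 1, …, |a|` bits sent by the first player, if the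
bits are those of `a`; `β` is his strategy, an arbitrary function. -/
def replies (β : List Bool → List Bool) (a : List Bool) : List (List Bool) :=
  (List.range (a.length + 1)).map fun i => β (a.take i)

open Classical in
/-- The first `j` bits sent by the first player, who knows `x`: his next bit is `1` if and only if
the pair of `x` and of the code of the list of the messages received so far is in `S`. -/
noncomputable def sent (S : Set (List Bool)) (β : List Bool → List Bool) (x : List Bool) :
    ℕ → List Bool
  | 0 => []
  | j + 1 => sent S β x j ++ [decide (pairBits x (bits (replies β (sent S β x j))) ∈ S)]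

end H70.PHS
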