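import Pool.Agent.Helper70K1.PHS.Ref

/-! Refuted labellings among few short strings. -/

set_option autoImplicit false

namespace H70.PHS

open Pool.Agent.NPC Pool.Agent.H622R2 Pool.Agent.H620R2.Gauge Pool.Agent.Helper67.PHP

/-- the type of the parameter: the advices, a string of length `m`, a bound -/
abbrev PT : Type := List (List Bool) × List Bool × List Bool

/-- decode the parameter -/
def dP (g : List Bool) : PT := (unbits PT g).getD ([], [], [])

theorem poly_dP : Poly dP := Poly.optGetD poly_unbits (Pool.Agent.NPC.Poly.const _)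

/-- decode a list of strings -/
def dL (c : List Bool) : List (List Bool) := (unbits (List (List Bool)) c).getD []

theorem poly_dL : Poly dL := Poly.optGetD poly_unbits (Pool.Agent.NPC.Poly.const _)

/-- the labelled instances -/
def lab (m : ℕ) (X : List (List Bool)) (v : List Bool) (ws : List (List Bool)) :
    List (List Bool × Bool) := ws.map (fun w => (inst m X w, ip v w))

theorem poly_lab {α : Type} [TEnc α] {m : α → ℕ} {X : α → List (List Bool)}
    {v : α → List Bool} {ws : α → List (List Bool)} (hm : UPoly m) (hX : Poly X) (hv : Poly v)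
    (hw : Poly ws) : Poly (fun a => lab (m a) (X a) (v a) (ws a)) := by
  have hm' : UPoly (fun p : α × List Bool => m p.1) := hm.comp (Poly.fst Poly.id)
  have hX' : Poly (fun p : α × List Bool => X p.1) := hX.comp (Poly.fst Poly.id)
  have hv' : Poly (fun p : α × List Bool => v p.1) := hv.comp (Poly.fst Poly.id)
  have hw' : Poly (fun p : α × List Bool => p.2) := Poly.snd Poly.id
  have h1 : Poly (fun p : α × List Bool => (inst (m p.1) (X p.1) p.2, ip (v p.1) p.2)) :=
    Poly.pair (poly_inst hm' hX' hw') (poly_ip hv' hw')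
  exact Pool.Agent.NPC.Poly.map (F := fun a w => (inst (m a) (X a) w, ip (v a) w)) hw h1

/-- the code of the labelled instances -/
def yy (c g : List Bool) (l : List (List Bool × Bool)) : List Bool :=
  bits (lab (dP g).2.1.length (l.map (fun e => e.1)) (l.map (fun e => e.2)) (dL c))

/-- The labels of `l` are refuted by refuting labels of instances. -/
def QG (L' : Set (List Bool)) (a : List Bool × List (List Bool × Bool)) : Prop :=
  ∃ c : List Bool, c.length ≤ (dP a.1).2.2.length ∧
    (decide ((yy c a.1 a.2).length < (dP a.1).1.length) = true ∧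
      pairBits (yy c a.1 a.2) ((dP a.1).1.getD (yy c a.1 a.2).length []) ∈ L')

theorem ph_QG {A : Oracle} {L' : Set (List Bool)} (hL' : IsPH A L') : PHt A (QG L') := by
  have hc : Poly (fun v : List Bool × List Bool × List (List Bool × Bool) => v.1) :=
    Poly.fst Poly.id
  have hg : Poly (fun v : List Bool × List Bool × List (List Bool × Bool) => dP v.2.1) :=
    poly_dP.comp (Poly.fst (Poly.snd Poly.id))
  have hl : Poly (fun v : List Bool × List Bool × List (List Bool × Bool) => v.2.2) :=
    Poly.snd (Poly.snd Poly.id)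
  have hX : Poly (fun v : List Bool × List Bool × List (List Bool × Bool) =>
      v.2.2.map (fun e => e.1)) :=
    Pool.Agent.NPC.Poly.map (F := fun _ e => e.1) hl (Poly.fst (Poly.snd Poly.id))
  have hV : Poly (fun v : List Bool × List Bool × List (List Bool × Bool) =>
      v.2.2.map (fun e => e.2)) :=
    Pool.Agent.NPC.Poly.map (F := fun _ e => e.2) hl (Poly.snd (Poly.snd Poly.id))
  have hm : UPoly (fun v : List Bool × List Bool × List (List Bool × Bool) =>
      (dP v.2.1).2.1.length) := UPoly.length (Poly.fst (Poly.snd hg))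
  have hlab : Poly (fun v : List Bool × List Bool × List (List Bool × Bool) =>
      lab (dP v.2.1).2.1.length (v.2.2.map (fun e => e.1)) (v.2.2.map (fun e => e.2)) (dL v.1)) :=
    poly_lab hm hX hV (poly_dL.comp hc)
  have hy : Poly (fun v : List Bool × List Bool × List (List Bool × Bool) =>
      yy v.1 v.2.1 v.2.2) := poly_code hlab
  have hH := Poly.fst hg
  have p1 : PHt A (fun v : List Bool × List Bool × List (List Bool × Bool) =>
      decide ((yy v.1 v.2.1 v.2.2).length < (dP v.2.1).1.length) = true) :=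
    PHt.ofPoly (Poly.decide_lt (Poly.length hy) (Poly.length hH))
  have p2 : PHt A (fun v : List Bool × List Bool × List (List Bool × Bool) =>
      pairBits (yy v.1 v.2.1 v.2.2) ((dP v.2.1).1.getD (yy v.1 v.2.1 v.2.2).length []) ∈ L') :=
    (PHt.of_isPH hL').pre (f := fun v : List Bool × List Bool × List (List Bool × Bool) =>
      pairBits (yy v.1 v.2.1 v.2.2) ((dP v.2.1).1.getD (yy v.1 v.2.1 v.2.2).length []))
      (poly_pairBits hy (Poly.getD hH (Poly.length hy) (Pool.Agent.NPC.Poly.const [])))
  exact (p1.and p2).ex (b := fun a : List Bool × List (List Bool × Bool) => (dP a.1).2.2.length)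
    (UPoly.length (Poly.snd (Poly.snd (poly_dP.comp (Poly.fst Poly.id)))))

/-- the parameter -/
def par (h : ℕ → List Bool) (B m z : ℕ) : List Bool :=
  bits (((List.range (B + 1)).map h, List.replicate m false, List.replicate z false) : PT)

theorem dP_par (h : ℕ → List Bool) (B m z : ℕ) : dP (par h B m z) =
    ((List.range (B + 1)).map h, List.replicate m false, List.replicate z false) := by
  unfold dP par
  rw [unbits_bits]
  rfl

theorem getD_range {h : ℕ → List Bool} {B i : ℕ} (hi : i < B + 1) :
    ((List.range (B + 1)).map h).getD i [] = h i := by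
  rw [List.getD_eq_getElem?_getD, List.getElem?_map, List.getElem?_range hi]
  rfl

section

variable {L R L' : Set (List Bool)} {h : ℕ → List Bool}
  (hx : ∀ x, x ∈ R ↔ pairBits x (h x.length) ∈ L') {B m z : ℕ}

include hx

theorem qg_iff (l : List (List Bool × Bool)) : QG L' (par h B m z, l) ↔
    ∃ c : List Bool, c.length ≤ z ∧
      (bits (lab m (l.map (fun e => e.1)) (l.map (fun e => e.2)) (dL c))).length < B + 1 ∧
      bits (lab m (l.map (fun e => e.1)) (l.map (fun e => e.2)) (dL c)) ∈ R := by
  unfold QG yy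
  simp only [dP_par, List.length_replicate, List.length_map, List.length_range]
  apply exists_congr
  intro c
  apply and_congr_right
  intro _
  rw [decide_eq_true_eq]
  apply and_congr_right
  intro h1
  rw [getD_range h1, hx]

open Classical in
theorem qg_sound (hR : Refutes (KL L) R) (l : List (List Bool × Bool))
    (hl : QG L' (par h B m z, l)) : ∃ e ∈ l, ¬ (e.2 = true ↔ e.1 ∈ L) := by
  rw [qg_iff hx] at hl
  obtain ⟨c, _, _, h3⟩ := hl
  obtain ⟨e, he, he'⟩ := hR _ h3
  obtain ⟨w, hw, rfl⟩ := List.mem_map.1 he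
  by_contra hc
  push Not at hc
  apply he'
  simp only
  rw [inst_mem_kl, List.map_map]
  have h4 : l.map (fun e => e.2) = l.map ((fun x => decide (x ∈ L)) ∘ fun e => e.1) := by
    apply List.map_congr_left
    intro e he
    have h5 := hc e he
    simp only [Function.comp_apply]
    apply Bool.eq_iff_iff.2
    rw [decide_eq_true_eq]
    exact h5
  rw [h4]

end

theorem sz_inst_le {n N : ℕ} {X : List (List Bool)} {w : List Bool} (hX : X.length = N)
    (hX' : ∀ x ∈ X, x.length = n) (hw : w.length = N) :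
    sz (X, w) ≤ N * (4 * n + 6) + 3 := by
  rw [sz_pair]
  have h1 : sz X ≤ X.length * (4 * n + 1 + 1) + 1 := sz_le_length_mul X (4 * n + 1) fun y hy => by
    have := sz_listBool_le y
    rw [hX' y hy] at this
    exact this
  have h2 := sz_listBool_le w
  rw [hX] at h1
  rw [hw] at h2
  have h3 : N * (4 * n + 6) = N * (4 * n + 1 + 1) + N * 4 := by ring
  omega

/-- Any list of `N` strings has a refuted labelling. -/
theorem total_of_dense {R : Set (List Bool)} {n m q t N : ℕ} (hq : 1 ≤ q)
    (hD : Dense R m q (2 ^ t)) (hN : N = t * min q (2 ^ t) + 1)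
    (hm : 2 * (N * (4 * n + 6) + 3) + 1 ≤ m) {X : List (List Bool)}
    (hX : ∀ x ∈ X, x.length = n) (hXl : X.length = N) :
    ∃ (v : List Bool) (ws : List (List Bool)), v.length = N ∧ ws.length ≤ N ∧
      (∀ w ∈ ws, w.length = N) ∧ (∀ w ∈ ws, (inst m X w).length = m) ∧
      bits (lab m X v ws) ∈ R := by
  classical
  set q' := min q (2 ^ t) with hq'
  have hq1 : 1 ≤ q' := le_min hq Nat.one_le_two_pow
  obtain ⟨G, hG1, hG2⟩ := exists_vectors (q := q') (t := t) (N := N) (by omega) hq1 (2 ^ t) le_rfl
  have hlen : ∀ w : Fin N → ZMod 2, (inst m X (vec w)).length = m := by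
    intro w
    apply length_inst
    have := sz_inst_le hXl hX (length_vec w)
    omega
  set f : (Fin N → ZMod 2) → List Bool := fun w => inst m X (vec w) with hf
  have hinj : Function.Injective f := by
    intro w w' hww
    have h1 := congrArg dI hww
    rw [hf] at h1
    simp only [dI_inst] at h1
    exact vec_injective (congrArg Prod.snd h1)
  obtain ⟨l, hl1, hl2, hl3, hl4⟩ := hD (G.image f) (by
    intro u hu
    obtain ⟨w, _, rfl⟩ := Finset.mem_image.1 hu
    exact hlen w) (by rw [Finset.card_image_of_injective _ hinj, hG1])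
  -- the length of `l`
  have hlG : (l.map Prod.fst).toFinset ⊆ G.image f := by
    intro u hu
    rw [List.mem_toFinset] at hu
    obtain ⟨e, he, rfl⟩ := List.mem_map.1 hu
    exact hl3 e he
  have hcl : (l.map Prod.fst).toFinset.card = l.length := by
    rw [List.toFinset_card_of_nodup hl2, List.length_map]
  have hl5 : l.length ≤ q' := by
    apply le_min hl1
    rw [← hcl]
    refine (Finset.card_le_card hlG).trans ?_
    rw [Finset.card_image_of_injective _ hinj, hG1]
  have hq'N : q' ≤ N := by
    rw [hN]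
    rcases Nat.eq_zero_or_pos t with ht | ht
    · have : q' ≤ 2 ^ t := min_le_right _ _
      rw [ht, pow_zero] at this
      omega
    · have : 1 * q' ≤ t * q' := Nat.mul_le_mul_right _ ht
      omega
  -- the vectors
  set S := G.filter (fun w => f w ∈ (l.map Prod.fst).toFinset) with hS
  have hS1 : S.card ≤ q' := by
    refine le_trans ?_ hl5
    rw [← hcl, ← Finset.card_image_of_injective S hinj]
    apply Finset.card_le_card
    intro u hu
    obtain ⟨w, hw, rfl⟩ := Finset.mem_image.1 hu
    rw [hS, Finset.mem_filter] at hw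
    exact hw.2
  obtain ⟨v, hv⟩ := exists_sol S (fun T hT hT' => hG2 T (hT.trans (Finset.filter_subset _ _)) hT'
    ((Finset.card_le_card hT).trans hS1)) (fun w => if (f w, true) ∈ l then 1 else 0)
  have hws : ∀ e ∈ l, ∃ w : Fin N → ZMod 2, (dI e.1).2 = vec w ∧
      e = (inst m X (dI e.1).2, ip (vec v) (dI e.1).2) := by
    intro e he
    obtain ⟨w, hw, hwe⟩ := Finset.mem_image.1 (hl3 e he)
    have h1 : (dI e.1).2 = vec w := by
      rw [← hwe, hf]
      simp only [dI_inst]
    refine ⟨w, h1, ?_⟩
    rw [h1, ip_vec, hv w (by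
      rw [hS, Finset.mem_filter]
      refine ⟨hw, ?_⟩
      rw [hwe, List.mem_toFinset]
      exact List.mem_map_of_mem he)]
    refine Prod.ext hwe.symm ?_
    simp only
    by_cases hc : (f w, true) ∈ l
    · rw [if_pos hc]
      have h2 : e = (f w, true) := List.inj_on_of_nodup_map hl2 he hc (by rw [hwe])
      rw [h2]
      simp
    · rw [if_neg hc]
      have h2 : e.2 = false := by
        by_contra h3
        rw [Bool.not_eq_false] at h3
        apply hc
        rw [hwe, ← h3]
        exact he
      rw [h2]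
      simp
  refine ⟨vec v, l.map (fun e => (dI e.1).2), length_vec v, by
    rw [List.length_map]; omega, ?_, ?_, ?_⟩
  · intro w hw
    obtain ⟨e, he, rfl⟩ := List.mem_map.1 hw
    obtain ⟨w', h1, _⟩ := hws e he
    rw [h1, length_vec]
  · intro w hw
    obtain ⟨e, he, rfl⟩ := List.mem_map.1 hw
    obtain ⟨w', h1, _⟩ := hws e he
    rw [h1]
    exact hlen w'
  · have h1 : lab m X (vec v) (l.map (fun e => (dI e.1).2)) = l := by
      unfold lab
      rw [List.map_map]
      conv_rhs => rw [← List.map_id l]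
      apply List.map_congr_left
      intro e he
      exact (hws e he).choose_spec.2.symm
    rw [h1]
    exact hl4

/-- the choice of the length -/
theorem exists_exps {ε : ℝ} (hε : 0 < ε) {q t : ℕ → ℕ} {P : ℕ → Prop}
    (h : ∀ᶠ m in Filter.atTop, 1 ≤ q m ∧ (q m : ℝ) * t m ≤ (m : ℝ) ^ (1 - ε) ∧ P m) :
    ∃ c₁ c₂ : ℕ, ∀ n : ℕ, 1 ≤ q ((n + c₁) ^ c₂) ∧ P ((n + c₁) ^ c₂) ∧
      2 * ((t ((n + c₁) ^ c₂) * min (q ((n + c₁) ^ c₂)) (2 ^ t ((n + c₁) ^ c₂)) + 1) *
        (4 * n + 6) + 3) + 1 ≤ (n + c₁) ^ c₂ := by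
  obtain ⟨m₀, hm₀⟩ := Filter.eventually_atTop.1 h
  set c₂ := ⌈3 / ε⌉₊ + 3 with hc₂
  refine ⟨max m₀ 6, c₂, fun n => ?_⟩
  set M := n + max m₀ 6 with hM
  have hM6 : n + 6 ≤ M := by
    have := le_max_right m₀ 6
    omega
  have hMm : m₀ ≤ M := by
    have := le_max_left m₀ 6
    omega
  have hMp : M ≤ M ^ c₂ := Nat.le_self_pow (by omega) M
  obtain ⟨h1, h2, h3⟩ := hm₀ (M ^ c₂) (hMm.trans hMp)
  refine ⟨h1, h3, ?_⟩
  have hMR : (1 : ℝ) ≤ (M : ℝ) := by
    have : 1 ≤ M := by omega
    exact_mod_cast this
  have h4 : ((M ^ c₂ : ℕ) : ℝ) ^ (1 - ε) ≤ ((M ^ (c₂ - 3) : ℕ) : ℝ) := by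
    push_cast
    rw [← Real.rpow_natCast (M : ℝ) c₂, ← Real.rpow_mul (by positivity),
      ← Real.rpow_natCast (M : ℝ) (c₂ - 3)]
    apply Real.rpow_le_rpow_of_exponent_le hMR
    have h5 : 3 / ε ≤ (⌈3 / ε⌉₊ : ℝ) := Nat.le_ceil _
    have h6 : 3 ≤ (c₂ : ℝ) * ε := by
      have h7 : 3 / ε ≤ (c₂ : ℝ) := by
        rw [hc₂]
        push_cast
        linarith
      calc (3 : ℝ) = 3 / ε * ε := by field_simp
        _ ≤ c₂ * ε := mul_le_mul_of_nonneg_right h7 hε.le
    rw [Nat.cast_sub (by omega)]
    push_cast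
    nlinarith
  have h5 : q (M ^ c₂) * t (M ^ c₂) ≤ M ^ (c₂ - 3) := by
    have h6 := h2.trans h4
    exact_mod_cast h6
  have h6 : t (M ^ c₂) * min (q (M ^ c₂)) (2 ^ t (M ^ c₂)) ≤ M ^ (c₂ - 3) := by
    refine le_trans (Nat.mul_le_mul_left _ (min_le_left _ _)) ?_
    rw [mul_comm]
    exact h5
  have h7 : M ^ c₂ = M ^ (c₂ - 3) * M * (M * M) := by
    have : c₂ = (c₂ - 3) + 3 := by omega
    conv_lhs => rw [this, pow_add]
    ring
  set a := M ^ (c₂ - 3) with ha
  have ha1 : 1 ≤ a := Nat.one_le_pow _ _ (by omega)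
  calc 2 * ((t (M ^ c₂) * min (q (M ^ c₂)) (2 ^ t (M ^ c₂)) + 1) * (4 * n + 6) + 3) + 1 ≤
      2 * ((a + a) * (4 * M) + 3) + 1 := by
        gcongr
        omega
    _ ≤ a * M * 23 := by
        have : 1 * 1 ≤ a * M := Nat.mul_le_mul ha1 (by omega)
        nlinarith
    _ ≤ a * M * (M * M) := by
        apply Nat.mul_le_mul_left
        nlinarith
    _ = M ^ c₂ := h7.symm

/-- Refuted labellings of few among many instances give the hierarchy with polynomial advice. -/
theorem phpoly_of_gen {A : Oracle} {L R : Set (List Bool)} (hR : IsPHpoly A R)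
    (hRef : Refutes (KL L) R) {ε : ℝ} (hε : 0 < ε) {q t : ℕ → ℕ}
    (h : ∀ᶠ m in Filter.atTop, 1 ≤ q m ∧ (q m : ℝ) * t m ≤ (m : ℝ) ^ (1 - ε) ∧
      Dense R m (q m) (2 ^ t m)) : IsPHpoly A L := by
  obtain ⟨c₁, c₂, hc⟩ := exists_exps hε h
  obtain ⟨L', h, p, hL', hh, hx⟩ := hR
  let m : ℕ → ℕ := fun n => (n + c₁) ^ c₂
  let N : ℕ → ℕ := fun n => t (m n) * min (q (m n)) (2 ^ t (m n)) + 1
  have hNm : ∀ n, N n ≤ m n := by
    intro n
    have h1 := (hc n).2.2
    have h2 : N n * 1 ≤ N n * (4 * n + 6) := Nat.mul_le_mul_left _ (by omega)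
    have h3 : 2 * (N n * (4 * n + 6) + 3) + 1 ≤ m n := h1
    omega
  let B : ℕ → ℕ := fun n => N n * (4 * m n + 6) + 1
  let z : ℕ → ℕ := fun n => N n * (4 * N n + 2) + 1
  let pm : Polynomial ℕ := (Polynomial.X + Polynomial.C c₁) ^ c₂
  have hpm : ∀ n, pm.eval n = m n := by
    intro n
    simp only [pm, m, Polynomial.eval_pow, Polynomial.eval_add, Polynomial.eval_X,
      Polynomial.eval_C]
  let pB : Polynomial ℕ := pm * (Polynomial.C 4 * pm + Polynomial.C 6) + Polynomial.C 1
  have hB : ∀ n, B n ≤ pB.eval n := by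
    intro n
    simp only [pB, B, Polynomial.eval_add, Polynomial.eval_mul, Polynomial.eval_C, hpm]
    have := hNm n
    gcongr
  refine phpoly_of_mc (Q := QG L') (ph_QG hL') (fun n => par h (B n) (m n) (z n))
    ((pB + Polynomial.C 1) * (Polynomial.C 4 * p.comp pB + Polynomial.C 2) + Polynomial.C 1 +
      ((Polynomial.C 4 * pm + Polynomial.C 1) + (Polynomial.C 4 * (pm * (Polynomial.C 4 * pm +
        Polynomial.C 2) + Polynomial.C 1) + Polynomial.C 1) + Polynomial.C 1) + Polynomial.C 1)
    (fun n => ?_) N pm (fun n => ?_) (fun n l _ hl => qg_sound hx hRef l hl) (fun n X hX hXl => ?_)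
  · unfold par
    rw [bits_length, sz_pair, sz_pair]
    have e1 := sz_listBool_le (List.replicate (m n) false)
    have e2 := sz_listBool_le (List.replicate (z n) false)
    rw [List.length_replicate] at e1 e2
    have e3 : sz ((List.range (B n + 1)).map h) ≤ (B n + 1) * (4 * p.eval (B n) + 1 + 1) + 1 := by
      refine (sz_le_length_mul _ (4 * p.eval (B n) + 1) ?_).trans ?_
      · intro a ha
        obtain ⟨i, hi, rfl⟩ := List.mem_map.1 ha
        rw [List.mem_range] at hi
        have e1 := sz_listBool_le (h i)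
        have e2 := hh i
        have e3 : p.eval i ≤ p.eval (B n) := eval_mono p (by omega)
        omega
      · rw [List.length_map, List.length_range]
    have e4 : (B n + 1) * (4 * p.eval (B n) + 1 + 1) ≤ (pB.eval n + 1) *
        (4 * p.eval (pB.eval n) + 2) := by
      have f1 := hB n
      have f2 : p.eval (B n) ≤ p.eval (pB.eval n) := eval_mono p f1
      apply Nat.mul_le_mul <;> omega
    have e5 : z n ≤ m n * (4 * m n + 2) + 1 := by
      have := hNm n
      show N n * (4 * N n + 2) + 1 ≤ _
      gcongr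
    simp only [Polynomial.eval_add, Polynomial.eval_mul, Polynomial.eval_C, Polynomial.eval_comp,
      hpm]
    omega
  · rw [hpm]
    exact hNm n
  · obtain ⟨h1, h2, h3⟩ := hc n
    obtain ⟨v, ws, hv, hw1, hw2, hw3, hw4⟩ := total_of_dense (n := n) h1 h2 rfl h3 hX hXl
    refine ⟨v, hv, ?_⟩
    rw [qg_iff hx]
    have e1 : (X.zip v).map (fun e => e.1) = X := by
      have := List.map_fst_zip (l₁ := X) (l₂ := v) (by rw [hXl, hv])
      exact this
    have e2 : (X.zip v).map (fun e => e.2) = v := by
      have := List.map_snd_zip (l₁ := X) (l₂ := v) (by rw [hXl, hv])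
      exact this
    have e3 : dL (bits ws) = ws := by
      unfold dL
      rw [unbits_bits]
      rfl
    rw [e1, e2]
    refine ⟨bits ws, ?_, ?_, ?_⟩
    · rw [bits_length]
      refine (sz_le_length_mul ws (4 * N n + 1) fun w hw => ?_).trans ?_
      · have := sz_listBool_le w
        rw [hw2 w hw] at this
        exact this
      · show _ ≤ N n * (4 * N n + 2) + 1
        have : ws.length * (4 * N n + 1 + 1) ≤ N n * (4 * N n + 2) :=
          Nat.mul_le_mul hw1 (by omega)
        omega
    · rw [e3, bits_length]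
      refine Nat.lt_succ_of_le ((sz_lab_le _ (n := m n) ?_).trans ?_)
      · intro e he
        obtain ⟨w, hw, rfl⟩ := List.mem_map.1 he
        exact hw3 w hw
      · unfold lab
        rw [List.length_map]
        have h9 : ws.length * (4 * m n + 6) ≤ N n * (4 * m n + 6) :=
          Nat.mul_le_mul_right (4 * m n + 6) hw1
        exact Nat.add_le_add_right h9 1
    · rw [e3]
      exact hw4

end H70.PHS
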