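import Pool.Agent.Helper70K1.PHS.Sk

/-! Interactive compression. -/

set_option autoImplicit false

namespace H70.PHS

open Pool.Agent.NPC Pool.Agent.H622R2 Pool.Agent.H620R2.Gauge Pool.Agent.Helper67.PHP

/-! ### Covering by few transcripts -/

/-- Few values of `τ` cover all points. -/
theorem exists_cover (τ : List (List Bool) → List Bool) {s N : ℕ} (hs : ∀ X, (τ X).length = s)
    (hN : s ≤ N) (hN1 : 1 ≤ N) : ∀ (k : ℕ) (U : Finset (List Bool)), U.card < 2 ^ k →
      ∃ Xs : List (List (List Bool)), Xs.length ≤ k ∧
        (∀ X ∈ Xs, X.length = N ∧ ∀ x ∈ X, x ∈ U) ∧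
        ∀ x ∈ U, ∃ X : List (List Bool), X.length = N ∧ (∀ y ∈ X, y ∈ U) ∧ x ∈ X ∧
          ∃ X' ∈ Xs, τ X = τ X' := by
  classical
  intro k
  induction k with
  | zero =>
    intro U hU
    have h0 : U = ∅ := Finset.card_eq_zero.1 (by simpa using hU)
    exact ⟨[], le_rfl, by simp, by simp [h0]⟩
  | succ k ih =>
    intro U hU
    rcases U.eq_empty_or_nonempty with h0 | h0
    · exact ⟨[], Nat.zero_le _, by simp, by simp [h0]⟩
    set F : Finset (Fin N → List Bool) := Fintype.piFinset (fun _ => U) with hF
    have hFc : F.card = U.card ^ N := by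
      rw [hF, Fintype.card_piFinset]
      simp
    -- a popular value
    obtain ⟨a, ha⟩ : ∃ a, U.card ^ N ≤ 2 ^ s * (F.filter (fun f => τ (List.ofFn f) = a)).card := by
      by_contra hc
      push Not at hc
      have h1 : F.card = ∑ a ∈ Str s, (F.filter (fun f => τ (List.ofFn f) = a)).card :=
        Finset.card_eq_sum_card_fiberwise (fun f _ => mem_Str.2 (hs _))
      have h2 : ∑ a ∈ Str s, 2 ^ s * (F.filter (fun f => τ (List.ofFn f) = a)).card <
          ∑ a ∈ Str s, U.card ^ N :=
        Finset.sum_lt_sum_of_nonempty (Str_nonempty s) (fun a _ => hc a)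
      rw [← Finset.mul_sum, ← h1, Finset.sum_const, smul_eq_mul, hFc] at h2
      have h3 := Nat.mul_le_mul_right (U.card ^ N) (card_Str s)
      omega
    set V := U.filter (fun x => ∃ f ∈ F, (∃ i, f i = x) ∧ τ (List.ofFn f) = a) with hV
    have h1 : (F.filter (fun f => τ (List.ofFn f) = a)).card ≤ V.card ^ N := by
      have h2 : F.filter (fun f => τ (List.ofFn f) = a) ⊆ Fintype.piFinset (fun _ : Fin N => V) := by
        intro f hf
        rw [Finset.mem_filter] at hf
        rw [Fintype.mem_piFinset]
        intro i
        rw [hV, Finset.mem_filter]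
        exact ⟨Fintype.mem_piFinset.1 hf.1 i, f, hf.1, ⟨i, rfl⟩, hf.2⟩
      refine (Finset.card_le_card h2).trans ?_
      rw [Fintype.card_piFinset]
      simp
    have h2 : U.card ≤ 2 * V.card := by
      have h3 : U.card ^ N ≤ (2 * V.card) ^ N := by
        rw [mul_pow]
        refine ha.trans (Nat.mul_le_mul (Nat.pow_le_pow_right (by norm_num) hN) h1)
      exact (Nat.pow_le_pow_iff_left (by omega)).1 h3
    have hVU : V ⊆ U := Finset.filter_subset _ _
    have h3 : (U \ V).card = U.card - V.card := Finset.card_sdiff_of_subset hVU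
    obtain ⟨Xs, hX1, hX2, hX3⟩ := ih (U \ V) (by rw [pow_succ] at hU; omega)
    -- a representative
    have hVne : V.Nonempty := by
      rw [← Finset.card_pos]
      have := Finset.card_pos.2 h0
      omega
    obtain ⟨x0, hx0⟩ := hVne
    obtain ⟨-, f0, hf0, -, hf0a⟩ := Finset.mem_filter.1 hx0
    refine ⟨List.ofFn f0 :: Xs, by simpa using hX1, ?_, ?_⟩
    · intro X hX
      rcases List.mem_cons.1 hX with h | h
      · refine ⟨by rw [h]; simp, fun x hx => ?_⟩
        rw [h, List.mem_ofFn] at hx
        obtain ⟨i, rfl⟩ := hx
        exact Fintype.mem_piFinset.1 hf0 i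
      · exact ⟨(hX2 X h).1, fun x hx => (Finset.mem_sdiff.1 ((hX2 X h).2 x hx)).1⟩
    · intro x hx
      by_cases hxV : x ∈ V
      · obtain ⟨-, f, hf, ⟨i, hi⟩, hfa⟩ := Finset.mem_filter.1 hxV
        refine ⟨List.ofFn f, by simp, ?_, ?_, List.ofFn f0, List.mem_cons_self .., ?_⟩
        · intro y hy
          rw [List.mem_ofFn] at hy
          obtain ⟨j, rfl⟩ := hy
          exact Fintype.mem_piFinset.1 hf j
        · rw [List.mem_ofFn]
          exact ⟨i, hi⟩
        · rw [hfa, hf0a]
      · obtain ⟨X, h4, h5, h6, X', h7, h8⟩ := hX3 x (Finset.mem_sdiff.2 ⟨hx, hxV⟩)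
        exact ⟨X, h4, fun y hy => (Finset.mem_sdiff.1 (h5 y hy)).1, h6, X',
          List.mem_cons_of_mem _ h7, h8⟩

/-! ### Transcripts -/

theorem length_sent (S : Set (List Bool)) (β : List Bool → List Bool) (x : List Bool) :
    ∀ j, (sent S β x j).length = j
  | 0 => rfl
  | j + 1 => by
    rw [sent, List.length_append, length_sent S β x j]
    rfl

theorem replies_take (β : List Bool → List Bool) (a : List Bool) {j : ℕ} (hj : j ≤ a.length) :
    replies β (a.take j) = (replies β a).take (j + 1) := by
  unfold replies
  rw [List.length_take, min_eq_left hj, ← List.map_take, List.take_range,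
    min_eq_left (by omega)]
  apply List.map_congr_left
  intro i hi
  rw [List.mem_range] at hi
  rw [List.take_take, min_eq_left (by omega)]

theorem take_sent (S : Set (List Bool)) (β : List Bool → List Bool) (x : List Bool) {s : ℕ} :
    ∀ j ≤ s, (sent S β x s).take j = sent S β x j := by
  induction s with
  | zero =>
    intro j hj
    rw [Nat.le_zero.1 hj]
    rfl
  | succ s ih =>
    intro j hj
    rcases Nat.lt_or_ge j (s + 1) with h | h
    · rw [sent, List.take_append_of_le_length (by rw [length_sent]; omega)]
      exact ih j (by omega)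
    · have : j = s + 1 := by omega
      subst this
      rw [List.take_of_length_le (by rw [length_sent])]

open Classical in
/-- the transcript determines the bits -/
theorem sent_eq_iff (S : Set (List Bool)) (β : List Bool → List Bool) (x a : List Bool) :
    sent S β x a.length = a ↔ ∀ j < a.length, (a.getD j false = true ↔
      pairBits x (bits ((replies β a).take (j + 1))) ∈ S) := by
  have hstep : ∀ j, (hj : j < a.length) → (a.getD j false = a[j]) := by
    intro j hj
    rw [List.getD_eq_getElem?_getD, List.getElem?_eq_getElem hj]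
    rfl
  constructor
  · intro h j hj
    have h1 := take_sent S β x (j + 1) (s := a.length) (by omega)
    have h2 := take_sent S β x j (s := a.length) hj.le
    rw [h] at h1 h2
    rw [sent, ← h2, replies_take β a hj.le, List.take_succ_eq_append_getElem hj] at h1
    have h3 := List.append_cancel_left h1
    rw [hstep j hj]
    rw [List.singleton_inj] at h3
    rw [h3, decide_eq_true_eq]
  · intro h
    have key : ∀ j ≤ a.length, sent S β x j = a.take j := by
      intro j
      induction j with
      | zero => intro _; simp [sent]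
      | succ j ih =>
        intro hj
        have hj' : j < a.length := by omega
        rw [sent, ih hj'.le, replies_take β a hj'.le, List.take_succ_eq_append_getElem hj']
        congr 1
        rw [List.singleton_inj]
        have h1 := h j hj'
        rw [hstep j hj'] at h1
        apply Bool.eq_iff_iff.2
        rw [decide_eq_true_eq]
        exact h1.symm
    have h1 := key a.length le_rfl
    rwa [List.take_length] at h1

/-! ### The auxiliary language -/

/-- decode an instance -/
def dX (u : List Bool) : List (List Bool) := dL (unpair u).1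

theorem poly_dX : Poly dX := poly_dL.comp (Poly.fst poly_unpair)

/-- the instance, filled up to length `m` -/
def instO (m : ℕ) (X : List (List Bool)) : List Bool :=
  pairBits (bits X) (List.replicate (m - (2 * sz X + 1)) false)

theorem dX_instO (m : ℕ) (X : List (List Bool)) : dX (instO m X) = X := by
  unfold dX instO dL
  rw [unpair_pairBits, unbits_bits]
  rfl

theorem length_instO {m : ℕ} {X : List (List Bool)} (h : 2 * sz X + 1 ≤ m) :
    (instO m X).length = m := by
  unfold instO
  rw [length_pairBits, bits_length, List.length_replicate]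
  omega

theorem poly_instO {α : Type} [TEnc α] {m : α → ℕ} {X : α → List (List Bool)}
    (hm : UPoly m) (hX : Poly X) : Poly (fun a => instO (m a) (X a)) := by
  have h1 : Poly (fun a => bits (X a)) := poly_code hX
  have h2 : Poly (fun a => m a - (2 * (bits (X a)).length + 1)) :=
    Poly.sub hm.toPoly (Poly.add (Poly.mul (Pool.Agent.NPC.Poly.const 2) (Poly.length h1))
      (Pool.Agent.NPC.Poly.const 1))
  have h3 : UPoly (fun a => m a - (2 * (bits (X a)).length + 1)) :=
    UPoly.of_le h2 hm (fun a => Nat.sub_le _ _)
  have h4 : Poly (fun a => (List.replicate (m a - (2 * (bits (X a)).length + 1)) ()).map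
      (fun _ => false)) :=
    Pool.Agent.NPC.Poly.map (F := fun _ _ => false) h3 (Pool.Agent.NPC.Poly.const _)
  refine (poly_pairBits h1 h4).congr fun a => ?_
  unfold instO
  rw [List.map_replicate, bits_length]

/-- the auxiliary language: some string of the list is in `L` -/
def KO (L : Set (List Bool)) : Set (List Bool) := {u | ∃ x ∈ dX u, x ∈ L}

theorem ko_pspace {A : Oracle} {L : Set (List Bool)} (hL : IsPSPACE A L) : IsPSPACE A (KO L) := by
  classical
  have h := psTt (α := List Bool) hL (X := dX) poly_dX (F := fun p => p.2.any fun b => b)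
    (Poly.any (l := fun p : List Bool × List Bool => p.2) (p := fun _ b => b)
      (Poly.snd Poly.id) (Poly.snd Poly.id))
  have h2 := h.isPSPACE
  have h3 : KO L = {u | ((dX u).map (fun x => decide (x ∈ L))).any (fun b => b) = true} := by
    ext u
    simp only [KO, Set.mem_ofPred_eq, List.any_map, List.any_eq_true, Function.comp_apply,
      decide_eq_true_eq]
  rw [h3]
  convert h2 using 1

theorem instO_mem {L : Set (List Bool)} (m : ℕ) (X : List (List Bool)) :
    instO m X ∈ KO L ↔ ∃ x ∈ X, x ∈ L := by
  show (∃ x ∈ dX (instO m X), x ∈ L) ↔ _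
  rw [dX_instO]

/-! ### The formula -/

/-- the advice: the advices for `S`, a string of length `m`, a bound, the transcripts -/
abbrev IT : Type :=
  List (List Bool) × List Bool × List Bool × List (List Bool × List (List Bool))

/-- decode the advice -/
def dIT (g : List Bool) : IT := (unbits IT g).getD ([], [], [], [])

theorem poly_dIT : Poly dIT := Poly.optGetD poly_unbits (Pool.Agent.NPC.Poly.const _)

/-- the question of the first player -/
def qu (g : IT) (c i j : List Bool) : List Bool :=
  pairBits (instO g.2.1.length (dL c)) (bits ((g.2.2.2.getD i.length ([], [])).2.take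
    (j.length + 1)))

/-- The transcript number `|i|` is right for the instance coded by `c`. -/
def TrOK (L' : Set (List Bool)) (i c x : List Bool) (g : IT) : Prop :=
  (((decide (x ∈ dL c) && decide ((instO g.2.1.length (dL c)).length = g.2.1.length)) &&
    decide (i.length < g.2.2.2.length)) = true) ∧
  ∀ j : List Bool, j.length ≤ (g.2.2.2.getD i.length ([], [])).1.length →
    (decide (j.length < (g.2.2.2.getD i.length ([], [])).1.length) = true →
      (decide ((qu g c i j).length < g.1.length) = true ∧
      ((g.2.2.2.getD i.length ([], [])).1.getD j.length false = true ↔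
        pairBits (qu g c i j) (g.1.getD (qu g c i j).length []) ∈ L')))

/-- some transcript is right for some instance containing `x` -/
def InO (L' : Set (List Bool)) (x : List Bool) (g : IT) : Prop :=
  ∃ c : List Bool, c.length ≤ g.2.2.1.length ∧ ∃ i : List Bool, i.length ≤ g.2.2.2.length ∧
    TrOK L' i c x g

theorem poly_takeN {α : Type} [TEnc α] {l : α → List (List Bool)} {n : α → ℕ} (hl : Poly l)
    (hn : UPoly n) : Poly (fun a => (l a).take (n a)) := poly_take hl hn

theorem ph_InO {A : Oracle} {L' : Set (List Bool)} (hL' : IsPH A L') :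
    PHt A (fun v : List Bool × IT => InO L' v.1 v.2) := by
  -- variables: j, i, c, x, g
  have hj : Poly (fun v : List Bool × List Bool × List Bool × List Bool × IT => v.1) :=
    Poly.fst Poly.id
  have hi : Poly (fun v : List Bool × List Bool × List Bool × List Bool × IT => v.2.1) :=
    Poly.fst (Poly.snd Poly.id)
  have hc : Poly (fun v : List Bool × List Bool × List Bool × List Bool × IT => v.2.2.1) :=
    Poly.fst (Poly.snd (Poly.snd Poly.id))
  have hg : Poly (fun v : List Bool × List Bool × List Bool × List Bool × IT => v.2.2.2.2) :=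
    Poly.snd (Poly.snd (Poly.snd (Poly.snd Poly.id)))
  have htr : Poly (fun v : List Bool × List Bool × List Bool × List Bool × IT =>
      v.2.2.2.2.2.2.2.getD v.2.1.length ([], [])) :=
    Poly.getD (Poly.snd (Poly.snd (Poly.snd hg))) (Poly.length hi)
      (Pool.Agent.NPC.Poly.const _)
  have hins : Poly (fun v : List Bool × List Bool × List Bool × List Bool × IT =>
      instO v.2.2.2.2.2.1.length (dL v.2.2.1)) :=
    poly_instO (UPoly.length (Poly.fst (Poly.snd hg))) (poly_dL.comp hc)
  have htk : Poly (fun v : List Bool × List Bool × List Bool × List Bool × IT =>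
      (v.2.2.2.2.2.2.2.getD v.2.1.length ([], [])).2.take (v.1.length + 1)) :=
    poly_takeN (Poly.snd htr) (UPoly.add (UPoly.length hj) (UPoly.const 1))
  have hqu : Poly (fun v : List Bool × List Bool × List Bool × List Bool × IT =>
      qu v.2.2.2.2 v.2.2.1 v.2.1 v.1) := poly_pairBits hins (poly_code htk)
  have hH := Poly.fst hg
  have p1 : PHt A (fun v : List Bool × List Bool × List Bool × List Bool × IT =>
      decide (v.1.length < (v.2.2.2.2.2.2.2.getD v.2.1.length ([], [])).1.length) = true) :=
    PHt.ofPoly (Poly.decide_lt (Poly.length hj) (Poly.length (Poly.fst htr)))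
  have p2 : PHt A (fun v : List Bool × List Bool × List Bool × List Bool × IT =>
      decide ((qu v.2.2.2.2 v.2.2.1 v.2.1 v.1).length < v.2.2.2.2.1.length) = true) :=
    PHt.ofPoly (Poly.decide_lt (Poly.length hqu) (Poly.length hH))
  have p3 : PHt A (fun v : List Bool × List Bool × List Bool × List Bool × IT =>
      (v.2.2.2.2.2.2.2.getD v.2.1.length ([], [])).1.getD v.1.length false = true) :=
    PHt.ofPoly (Poly.getD (Poly.fst htr) (Poly.length hj) (Pool.Agent.NPC.Poly.const false))
  have p4 : PHt A (fun v : List Bool × List Bool × List Bool × List Bool × IT =>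
      pairBits (qu v.2.2.2.2 v.2.2.1 v.2.1 v.1)
        (v.2.2.2.2.1.getD (qu v.2.2.2.2 v.2.2.1 v.2.1 v.1).length []) ∈ L') :=
    (PHt.of_isPH hL').pre (f := fun v : List Bool × List Bool × List Bool × List Bool × IT =>
      pairBits (qu v.2.2.2.2 v.2.2.1 v.2.1 v.1)
        (v.2.2.2.2.1.getD (qu v.2.2.2.2 v.2.2.1 v.2.1 v.1).length []))
      (poly_pairBits hqu (Poly.getD hH (Poly.length hqu) (Pool.Agent.NPC.Poly.const [])))
  have hi' : Poly (fun v : List Bool × List Bool × List Bool × IT => v.1) :=
    Poly.fst Poly.id
  have hc' : Poly (fun v : List Bool × List Bool × List Bool × IT => v.2.1) :=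
    Poly.fst (Poly.snd Poly.id)
  have hx' : Poly (fun v : List Bool × List Bool × List Bool × IT => v.2.2.1) :=
    Poly.fst (Poly.snd (Poly.snd Poly.id))
  have hg' : Poly (fun v : List Bool × List Bool × List Bool × IT => v.2.2.2) :=
    Poly.snd (Poly.snd (Poly.snd Poly.id))
  have htr' : Poly (fun v : List Bool × List Bool × List Bool × IT =>
      v.2.2.2.2.2.2.getD v.1.length ([], [])) :=
    Poly.getD (Poly.snd (Poly.snd (Poly.snd hg'))) (Poly.length hi')
      (Pool.Agent.NPC.Poly.const _)
  have p5 := (p1.imp (p2.and (p3.iff p4))).all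
    (b := fun v : List Bool × List Bool × List Bool × IT =>
      (v.2.2.2.2.2.2.getD v.1.length ([], [])).1.length) (UPoly.length (Poly.fst htr'))
  have hins' : Poly (fun v : List Bool × List Bool × List Bool × IT =>
      instO v.2.2.2.2.1.length (dL v.2.1)) :=
    poly_instO (UPoly.length (Poly.fst (Poly.snd hg'))) (poly_dL.comp hc')
  have c1 : Poly (fun v : List Bool × List Bool × List Bool × IT =>
      decide (v.2.2.1 ∈ dL v.2.1)) :=
    (Poly.decide_mem hx' (poly_dL.comp hc')).congr fun _ => by congr
  have p6 : PHt A (fun v : List Bool × List Bool × List Bool × IT =>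
      ((decide (v.2.2.1 ∈ dL v.2.1) && decide ((instO v.2.2.2.2.1.length (dL v.2.1)).length =
        v.2.2.2.2.1.length)) && decide (v.1.length < v.2.2.2.2.2.2.length)) = true) :=
    PHt.ofPoly (Poly.and (Poly.and c1 (Poly.decide_eq (Poly.length hins')
      (Poly.length (Poly.fst (Poly.snd hg'))))) (Poly.decide_lt (Poly.length hi')
        (Poly.length (Poly.snd (Poly.snd (Poly.snd hg'))))))
  have p7 := (p6.and p5).ex (b := fun v : List Bool × List Bool × IT => v.2.2.2.2.2.length)
    (UPoly.length (Poly.snd (Poly.snd (Poly.snd (Poly.snd (Poly.snd Poly.id))))))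
  exact p7.ex (b := fun v : List Bool × IT => v.2.2.2.1.length)
    (UPoly.length (Poly.fst (Poly.snd (Poly.snd (Poly.snd Poly.id)))))

theorem sz_replies_le {β : List Bool → List Bool} {b : ℕ} (hβ : ∀ a, (β a).length ≤ b)
    (a : List Bool) (j : ℕ) :
    sz ((replies β a).take j) ≤ (a.length + 1) * (4 * b + 2) + 1 := by
  refine (sz_le_length_mul _ (4 * b + 1) ?_).trans ?_
  · intro r hr
    have h1 := List.mem_of_mem_take hr
    unfold replies at h1
    obtain ⟨i, _, rfl⟩ := List.mem_map.1 h1
    have h2 := sz_listBool_le (β (a.take i))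
    have h3 := hβ (a.take i)
    omega
  · have h1 : ((replies β a).take j).length ≤ a.length + 1 := by
      rw [List.length_take]
      refine (min_le_right _ _).trans ?_
      unfold replies
      simp
    have h2 : ((replies β a).take j).length * (4 * b + 1 + 1) ≤ (a.length + 1) * (4 * b + 2) :=
      Nat.mul_le_mul h1 (by omega)
    omega

theorem sz_strings_le {n : ℕ} {X : List (List Bool)} (h : ∀ x ∈ X, x.length = n) :
    sz X ≤ X.length * (4 * n + 2) + 1 := by
  refine (sz_le_length_mul X (4 * n + 1) fun x hx => ?_).trans ?_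
  · have := sz_listBool_le x
    rw [h x hx] at this
    exact this
  · exact Nat.add_le_add_right (Nat.mul_le_mul_left _ (by omega)) 1

/-- the advice for one length -/
theorem inO_iff {L S L' : Set (List Bool)} {h : ℕ → List Bool}
    (hx : ∀ x, x ∈ S ↔ pairBits x (h x.length) ∈ L') {β : List Bool → List Bool} {b m n s : ℕ}
    (hβ : ∀ a, (β a).length ≤ b) (hm : 2 * ((s + 1) * (4 * n + 2) + 1) + 1 ≤ m)
    (hd : ∀ x y : List Bool, x.length = m → y.length = m → sent S β x s = sent S β y s →
      (x ∈ KO L ↔ y ∈ KO L)) {B : ℕ} (hB : 2 * m + 1 + ((s + 1) * (4 * b + 2) + 1) ≤ B) :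
    ∃ tr : List (List Bool × List (List Bool)), tr.length ≤ n + 1 ∧
      (∀ e ∈ tr, sz e ≤ 4 * s + 1 + ((s + 1) * (4 * b + 2) + 1) + 1) ∧
      ∀ x : List Bool, x.length = n → (x ∈ L ↔ ¬ InO L' x ((List.range (B + 1)).map h,
        List.replicate m false, List.replicate ((s + 1) * (4 * n + 2) + 1) false, tr)) := by
  classical
  obtain ⟨Xs, h1, h2, h3⟩ := exists_cover (fun X => sent S β (instO m X) s)
    (fun X => length_sent _ _ _ _) (N := s + 1) (Nat.le_succ s) (Nat.succ_pos s) (n + 1)
    ((Str n).filter (fun x => x ∉ L)) (by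
      refine lt_of_le_of_lt ((Finset.card_filter_le _ _).trans (card_Str n)) ?_
      exact Nat.pow_lt_pow_right (by norm_num) (Nat.lt_succ_self n))
  have hU : ∀ x, x ∈ (Str n).filter (fun x => x ∉ L) ↔ x.length = n ∧ x ∉ L := by
    intro x
    rw [Finset.mem_filter, mem_Str]
  have hinst : ∀ X : List (List Bool), X.length = s + 1 → (∀ x ∈ X, x.length = n) →
      (instO m X).length = m := by
    intro X hX hX'
    apply length_instO
    have := sz_strings_le hX'
    rw [hX] at this
    omega
  set F : List (List Bool) → List Bool × List (List Bool) := fun X =>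
    (sent S β (instO m X) s, replies β (sent S β (instO m X) s)) with hF
  refine ⟨Xs.map F, by simpa using h1, ?_, ?_⟩
  · intro e he
    obtain ⟨X, hX, rfl⟩ := List.mem_map.1 he
    rw [hF]
    simp only
    rw [sz_pair]
    have e1 := sz_listBool_le (sent S β (instO m X) s)
    have e2 := sz_replies_le hβ (sent S β (instO m X) s) (s + 1)
    rw [length_sent] at e1 e2
    have e3 : (replies β (sent S β (instO m X) s)).take (s + 1) =
        replies β (sent S β (instO m X) s) := by
      apply List.take_of_length_le
      unfold replies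
      simp [length_sent]
    rw [e3] at e2
    omega
  · intro x hxn
    have hgd : ∀ y : List Bool, y.length < B + 1 →
        ((List.range (B + 1)).map h).getD y.length [] = h y.length := fun y hy => getD_range hy
    constructor
    · rintro hxL ⟨c, hc, i, hi, h4, h5⟩
      simp only [Bool.and_eq_true, decide_eq_true_eq, List.length_replicate, List.length_map]
        at h4 h5
      obtain ⟨⟨h6, h7⟩, h8⟩ := h4
      have e1 : (Xs.map F).getD i.length ([], []) = F (Xs[i.length]) := by
        rw [List.getD_eq_getElem?_getD, List.getElem?_map, List.getElem?_eq_getElem h8]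
        rfl
      rw [e1] at h5
      obtain ⟨h9, h10⟩ := h2 _ (List.getElem_mem h8)
      have h10' := fun y hy => (hU y).1 (h10 y hy)
      have e2 : sent S β (instO m (dL c)) s = sent S β (instO m Xs[i.length]) s := by
        have h11 := (sent_eq_iff S β (instO m (dL c)) (sent S β (instO m Xs[i.length]) s)).2 ?_
        · rwa [length_sent] at h11
        · intro j hj
          have h12 := h5 (List.replicate j false) (by simpa [hF] using hj.le)
            (by simpa [hF] using hj)
          unfold qu at h12
          simp only [List.length_replicate] at h12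
          rw [e1] at h12
          obtain ⟨h13, h14⟩ := h12
          rw [List.length_range] at h13
          rw [hgd _ h13, ← hx] at h14
          exact h14
      have h11 := hd _ _ h7 (hinst _ h9 fun y hy => (h10' y hy).1) e2
      rw [instO_mem, instO_mem] at h11
      obtain ⟨y, hy, hy'⟩ := h11.1 ⟨x, h6, hxL⟩
      exact (h10' y hy).2 hy'
    · intro hno
      by_contra hxL
      apply hno
      obtain ⟨X, h4, h5, h6, X', h7, h8⟩ := h3 x ((hU x).2 ⟨hxn, hxL⟩)
      obtain ⟨i, hi, hi'⟩ := List.mem_iff_getElem.1 h7
      have hXn : ∀ y ∈ X, y.length = n := fun y hy => ((hU y).1 (h5 y hy)).1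
      have e1 : dL (bits X) = X := by
        unfold dL
        rw [unbits_bits]
        rfl
      have e2 : (Xs.map F).getD i ([], []) = F X' := by
        rw [List.getD_eq_getElem?_getD, List.getElem?_map, List.getElem?_eq_getElem hi, hi']
        rfl
      refine ⟨bits X, ?_, List.replicate i false, ?_, ?_, ?_⟩
      · rw [bits_length, List.length_replicate]
        have := sz_strings_le hXn
        rwa [h4] at this
      · simpa using hi.le
      · simp only [e1, List.length_replicate, List.length_map, Bool.and_eq_true,
          decide_eq_true_eq]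
        exact ⟨⟨h6, hinst X h4 hXn⟩, hi⟩
      · intro j _ hj2
        unfold qu
        simp only [List.length_replicate, e1, e2, decide_eq_true_eq, List.length_map,
          List.length_range] at hj2 ⊢
        have h9 := (sent_eq_iff S β (instO m X) (sent S β (instO m X') s)).1 (by
          rw [length_sent]
          exact h8) j.length hj2
        have h10 : (pairBits (instO m X) (bits ((replies β (sent S β (instO m X') s)).take
            (j.length + 1)))).length < B + 1 := by
          rw [length_pairBits, bits_length, hinst X h4 hXn]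
          have := sz_replies_le hβ (sent S β (instO m X') s) (j.length + 1)
          rw [length_sent] at this
          omega
        refine ⟨h10, ?_⟩
        show ((sent S β (instO m X') s).getD j.length false = true ↔
          pairBits (pairBits (instO m X) (bits ((replies β (sent S β (instO m X') s)).take
            (j.length + 1)))) (((List.range (B + 1)).map h).getD (pairBits (instO m X)
              (bits ((replies β (sent S β (instO m X') s)).take (j.length + 1)))).length []) ∈ L')
        rw [hgd _ h10, ← hx]
        exact h9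

/-- Interactive compression gives the hierarchy with advice. -/
theorem phpoly_of_inter {A : Oracle} {L S : Set (List Bool)} (hS : IsPHpoly A S)
    {β : ℕ → List Bool → List Bool} {p : Polynomial ℕ}
    (hβ : ∀ m a, (β m a).length ≤ p.eval m) {s : ℕ → ℕ}
    (hd : Decides (KO L) (fun x => sent S (β x.length) x (s x.length))) {ε : ℝ} (hε : 0 < ε)
    (hs : ∀ᶠ m : ℕ in Filter.atTop, (s m : ℝ) ≤ (m : ℝ) ^ (1 - ε)) : IsPHpoly A L := by
  classical
  obtain ⟨c₁, c₂, hc⟩ := exists_exps hε (q := fun _ => 1) (t := s) (P := fun _ => True) (by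
    filter_upwards [hs] with m hm
    exact ⟨le_rfl, by simpa using hm, trivial⟩)
  obtain ⟨L', h, p', hL', hh, hx⟩ := hS
  let m : ℕ → ℕ := fun n => (n + c₁) ^ c₂
  have hm : ∀ n, 2 * ((s (m n) + 1) * (4 * n + 2) + 1) + 1 ≤ m n := by
    intro n
    have h1 := (hc n).2.2
    have h2 : min 1 (2 ^ s ((n + c₁) ^ c₂)) = 1 := min_eq_left Nat.one_le_two_pow
    rw [h2, mul_one] at h1
    have h3 : (s (m n) + 1) * (4 * n + 2) ≤ (s (m n) + 1) * (4 * n + 6) :=
      Nat.mul_le_mul_left _ (by omega)
    have h4 : 2 * ((s (m n) + 1) * (4 * n + 6) + 3) + 1 ≤ m n := h1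
    omega
  have hsm : ∀ n, s (m n) ≤ m n := by
    intro n
    have h1 := hm n
    have h2 : (s (m n) + 1) * 1 ≤ (s (m n) + 1) * (4 * n + 2) := Nat.mul_le_mul_left _ (by omega)
    omega
  let pm : Polynomial ℕ := (Polynomial.X + Polynomial.C c₁) ^ c₂
  have hpm : ∀ n, pm.eval n = m n := by
    intro n
    simp only [pm, m, Polynomial.eval_pow, Polynomial.eval_add, Polynomial.eval_X,
      Polynomial.eval_C]
  let pR : Polynomial ℕ := (pm + Polynomial.C 1) * (Polynomial.C 4 * p.comp pm + Polynomial.C 2) +
    Polynomial.C 1
  have hpR : ∀ n, (s (m n) + 1) * (4 * p.eval (m n) + 2) + 1 ≤ pR.eval n := by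
    intro n
    simp only [pR, Polynomial.eval_add, Polynomial.eval_mul, Polynomial.eval_C,
      Polynomial.eval_comp, hpm]
    have := hsm n
    gcongr
  let pB : Polynomial ℕ := Polynomial.C 2 * pm + Polynomial.C 1 + pR
  let B : ℕ → ℕ := fun n => pB.eval n
  have hB : ∀ n, 2 * m n + 1 + ((s (m n) + 1) * (4 * p.eval (m n) + 2) + 1) ≤ B n := by
    intro n
    have h1 := hpR n
    simp only [B, pB, Polynomial.eval_add, Polynomial.eval_mul, Polynomial.eval_C, hpm]
    omega
  have key := fun n => inO_iff (L := L) hx (hβ (m n)) (hm n) (fun x y hxm hym hxy => by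
    apply hd x y (hxm.trans hym.symm)
    simp only [hxm, hym]
    exact hxy) (hB n)
  choose tr htr1 htr2 htr3 using key
  let adv : ℕ → IT := fun n => ((List.range (B n + 1)).map h, List.replicate (m n) false,
    List.replicate ((s (m n) + 1) * (4 * n + 2) + 1) false, tr n)
  have hdec : Poly (fun y : List Bool => ((unpair y).1, dIT (unpair y).2)) :=
    Poly.pair (Poly.fst poly_unpair) (poly_dIT.comp (Poly.snd poly_unpair))
  have hPH := (((ph_InO hL').pre hdec).not).isPH
  refine ⟨_, fun n => bits (adv n), ((pB + Polynomial.C 1) * (Polynomial.C 4 * p'.comp pB +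
    Polynomial.C 2) + Polynomial.C 1) + ((Polynomial.C 4 * pm + Polynomial.C 1) +
      ((Polynomial.C 4 * ((pm + Polynomial.C 1) * (Polynomial.C 4 * Polynomial.X +
        Polynomial.C 2) + Polynomial.C 1) + Polynomial.C 1) + ((Polynomial.X + Polynomial.C 1) *
          ((Polynomial.C 4 * pm + Polynomial.C 1 + pR + Polynomial.C 1) + Polynomial.C 1) +
            Polynomial.C 1) + Polynomial.C 1) + Polynomial.C 1) + Polynomial.C 1, hPH,
    fun n => ?_, fun x => ?_⟩
  · rw [bits_length]
    show sz (((List.range (B n + 1)).map h, List.replicate (m n) false,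
      List.replicate ((s (m n) + 1) * (4 * n + 2) + 1) false, tr n) : IT) ≤ _
    rw [sz_pair, sz_pair, sz_pair]
    have e1 : sz ((List.range (B n + 1)).map h) ≤ (B n + 1) * (4 * p'.eval (B n) + 1 + 1) + 1 := by
      refine (sz_le_length_mul _ (4 * p'.eval (B n) + 1) ?_).trans ?_
      · intro a ha
        obtain ⟨i, hi, rfl⟩ := List.mem_map.1 ha
        rw [List.mem_range] at hi
        have e1 := sz_listBool_le (h i)
        have e2 := hh i
        have e3 : p'.eval i ≤ p'.eval (B n) := eval_mono p' (by omega)
        omega
      · rw [List.length_map, List.length_range]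
    have e1' : (B n + 1) * (4 * p'.eval (B n) + 1 + 1) = (B n + 1) * (4 * p'.eval (B n) + 2) := by
      ring
    have e2 := sz_listBool_le (List.replicate (m n) false)
    have e3 := sz_listBool_le (List.replicate ((s (m n) + 1) * (4 * n + 2) + 1) false)
    rw [List.length_replicate] at e2 e3
    have e4 : (s (m n) + 1) * (4 * n + 2) ≤ (m n + 1) * (4 * n + 2) :=
      Nat.mul_le_mul_right _ (by have := hsm n; omega)
    have e5 : sz (tr n) ≤ (n + 1) * ((4 * m n + 1 + pR.eval n + 1) + 1) + 1 := by
      refine (sz_le_length_mul _ (4 * m n + 1 + pR.eval n + 1) ?_).trans ?_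
      · intro e he
        have f1 := htr2 n e he
        have f2 := hpR n
        have f3 := hsm n
        omega
      · exact Nat.add_le_add_right (Nat.mul_le_mul_right _ (htr1 n)) 1
    simp only [Polynomial.eval_add, Polynomial.eval_mul, Polynomial.eval_C, Polynomial.eval_comp,
      Polynomial.eval_X, hpm]
    show _ ≤ (B n + 1) * (4 * p'.eval (B n) + 2) + 1 + _ + 1
    omega
  · show _ ↔ ¬ InO L' (unpair (pairBits x (bits (adv x.length)))).1
      (dIT (unpair (pairBits x (bits (adv x.length)))).2)
    have e1 : dIT (bits (adv x.length)) = adv x.length := by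
      unfold dIT
      rw [unbits_bits]
      rfl
    rw [unpair_pairBits]
    simp only
    rw [e1]
    exact htr3 x.length x rfl

/-- the trivial protocol -/
theorem inter_ph {A : Oracle} {K : Set (List Bool)} (h : IsPH A K) :
    ∃ S : Set (List Bool), IsPH A S ∧
      Decides K (fun x => sent S (fun _ => []) x 1) := by
  classical
  refine ⟨{z | (unpair z).1 ∈ K}, phPrecomp h (Poly.fst poly_unpair), fun x y _ hxy => ?_⟩
  simp only [sent, List.nil_append, List.cons.injEq, and_true, Set.mem_ofPred_eq,
    unpair_pairBits, decide_eq_decide] at hxy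
  exact hxy

end H70.PHS
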