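import Pool.Agent.Helper67.PHP.KL

/-! Closure properties of polynomial space. -/

set_option autoImplicit false

namespace H70.PHS

open Pool.Agent.NPC Pool.Agent.H622R2 Pool.Agent.H620R2.Gauge Pool.Agent.Helper67.PHP

theorem pspaceCases {A : Oracle} {L L' : Set (List Bool)} (h : IsPSPACE A L) (h' : IsPSPACE A L')
    {C : List Bool → Bool} (hC : Poly C) :
    IsPSPACE A {x | if C x = true then x ∈ L else x ∈ L'} := by
  obtain ⟨M, p, hM⟩ := h
  obtain ⟨M', p', hM'⟩ := h'
  have h1 : Poly (fun z : List Bool => (unpair z).1) := Poly.fst poly_unpair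
  have hc : Poly (fun z : List Bool => decide (C (unpair z).1 = true)) :=
    Poly.decide_bool (hC.comp h1)
  have hA : Poly (fun z : List Bool => if C (unpair z).1 = true then M.act z else M'.act z) :=
    Poly.ite hc (poly_of_polyTime M.act_poly) (poly_of_polyTime M'.act_poly)
  have hN : Poly (fun z : List Bool => if C (unpair z).1 = true then M.next z else M'.next z) :=
    Poly.ite hc (poly_of_polyTime M.next_poly) (poly_of_polyTime M'.next_poly)
  let N : SAlg := ⟨_, polyTime_of_poly_list hA, _, polyTime_of_poly_list hN⟩
  have hact : ∀ y s, N.act (pairBits y s) = if C y = true then M.act (pairBits y s)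
      else M'.act (pairBits y s) := by
    intro y s
    show (if C (unpair (pairBits y s)).1 = true then _ else _) = _
    rw [unpair_pairBits]
  have hnext : ∀ y s, N.next (pairBits y s) = if C y = true then M.next (pairBits y s)
      else M'.next (pairBits y s) := by
    intro y s
    show (if C (unpair (pairBits y s)).1 = true then _ else _) = _
    rw [unpair_pairBits]
  refine ⟨N, p + p', fun y => ?_⟩
  by_cases hy : C y = true
  · have hr : ∀ s, N.Reach A y s ↔ M.Reach A y s := by
      intro s
      constructor
      · intro h
        induction h with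
        | start => exact SAlg.Reach.start
        | step _ h1 ih =>
          rw [hnext, if_pos hy]
          rw [hact, if_pos hy] at h1
          exact SAlg.Reach.step ih h1
      · intro h
        induction h with
        | start => exact SAlg.Reach.start
        | @step s q _ h1 ih =>
          have h2 : N.next (pairBits y (A q :: s)) = M.next (pairBits y (A q :: s)) := by
            rw [hnext, if_pos hy]
          rw [← h2]
          exact SAlg.Reach.step ih (by rw [hact, if_pos hy]; exact h1)
    refine ⟨fun s hs => ?_, ?_⟩
    · refine ((hM y).1 s ((hr s).1 hs)).trans ?_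
      rw [Polynomial.eval_add]
      exact Nat.le_add_right _ _
    · obtain ⟨s, z, h3, h4, h5⟩ := (hM y).2
      refine ⟨s, z, (hr s).2 h3, by rw [hact, if_pos hy]; exact h4, ?_⟩
      rw [← h5]
      simp only [Set.mem_ofPred_eq, hy, if_true]
  · have hr : ∀ s, N.Reach A y s ↔ M'.Reach A y s := by
      intro s
      constructor
      · intro h
        induction h with
        | start => exact SAlg.Reach.start
        | step _ h1 ih =>
          rw [hnext, if_neg hy]
          rw [hact, if_neg hy] at h1
          exact SAlg.Reach.step ih h1
      · intro h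
        induction h with
        | start => exact SAlg.Reach.start
        | @step s q _ h1 ih =>
          have h2 : N.next (pairBits y (A q :: s)) = M'.next (pairBits y (A q :: s)) := by
            rw [hnext, if_neg hy]
          rw [← h2]
          exact SAlg.Reach.step ih (by rw [hact, if_neg hy]; exact h1)
    refine ⟨fun s hs => ?_, ?_⟩
    · refine ((hM' y).1 s ((hr s).1 hs)).trans ?_
      rw [Polynomial.eval_add]
      exact Nat.le_add_left _ _
    · obtain ⟨s, z, h3, h4, h5⟩ := (hM' y).2
      refine ⟨s, z, (hr s).2 h3, by rw [hact, if_neg hy]; exact h4, ?_⟩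
      rw [← h5]
      simp only [Set.mem_ofPred_eq, hy, if_false, Bool.false_eq_true]

section

variable {α β : Type} [TEnc α] [TEnc β] [TDec α] [TDec β] {A : Oracle}

omit [TDec β] in
theorem psPre {P : β → Prop} (h : PSt A P) {f : α → β} (hf : Poly f) :
    PSt A (fun a => P (f a)) := by
  obtain ⟨L, hL, h⟩ := h
  refine ⟨_, hL.precomp (poly_lft hf), fun a => ?_⟩
  show P (f a) ↔ lft f (bits a) ∈ L
  rw [h, lft_bits]

omit [TDec α] in
theorem psNot {P : α → Prop} (h : PSt A P) : PSt A (fun a => ¬ P a) := by
  obtain ⟨L, hL, h⟩ := h
  exact ⟨_, hL.compl, fun a => not_congr (h a)⟩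

omit [TDec α] in
theorem psOfPH {P : α → Prop} (h : PHt A P) : PSt A P := by
  obtain ⟨L, hL, h⟩ := h
  exact ⟨L, hL.isPSPACE, h⟩

theorem psOfL {L : Set (List Bool)} (h : IsPSPACE A L) :
    PSt A (fun x : List Bool => x ∈ L) := by
  have h1 : Poly (fun y : List Bool => (unbits (List Bool) y).getD []) :=
    Poly.optGetD poly_unbits (Pool.Agent.NPC.Poly.const _)
  refine ⟨_, h.precomp h1, fun a => ?_⟩
  show _ ↔ (unbits (List Bool) (bits a)).getD [] ∈ L
  rw [unbits_bits]
  rfl

theorem psIte {P Q : α → Prop} (h : PSt A P) (h' : PSt A Q) {C : α → Bool} (hC : Poly C) :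
    PSt A (fun a => if C a = true then P a else Q a) := by
  obtain ⟨L, hL, h⟩ := h
  obtain ⟨L', hL', h'⟩ := h'
  have h1 : Poly (fun y : List Bool => (unbits α y).elim false C) :=
    Poly.optElim (h := fun _ a => C a) poly_unbits (Pool.Agent.NPC.Poly.const _)
      (hC.comp (Poly.snd Poly.id))
  refine ⟨_, pspaceCases hL hL' h1, fun a => ?_⟩
  show (if C a = true then P a else Q a) ↔
    (if (unbits α (bits a)).elim false C = true then bits a ∈ L else bits a ∈ L')
  have hval : (unbits α (bits a)).elim false C = C a := by
    rw [unbits_bits]
    rfl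
  by_cases hc : C a = true
  · have hc' : (unbits α (bits a)).elim false C = true := by rw [hval]; exact hc
    rw [if_pos hc, if_pos hc']
    exact h a
  · have hc' : ¬ (unbits α (bits a)).elim false C = true := by rw [hval]; exact hc
    rw [if_neg hc, if_neg hc']
    exact h' a

theorem psEx {P : List Bool × α → Prop} (h : PSt A P) {b : α → ℕ} (hb : UPoly b) :
    PSt A (fun a => ∃ w : List Bool, w.length ≤ b a ∧ P (w, a)) := by
  obtain ⟨L, hL, h⟩ := h
  have h1 : Poly (fun z : List Bool => (unbits α (unpair z).2).elim T.nil
      (fun a => toT ((unpair z).1, a))) :=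
    Poly.optElim (h := fun z a => toT ((unpair z).1, a))
      (poly_unbits.comp (Poly.snd poly_unpair)) (Pool.Agent.NPC.Poly.const _)
      (Poly.toT' (Poly.pair (Poly.fst (poly_unpair.comp (Poly.fst Poly.id))) (Poly.snd Poly.id)))
  have h2 : Poly (fun z : List Bool => bits ((unbits α (unpair z).2).elim T.nil
      (fun a => toT ((unpair z).1, a)))) := poly_of_polyTime (polyTime_bits h1)
  have h3 : UPoly (fun y : List Bool => (unbits α y).elim 0 b) := by
    have h4 : Poly (fun y : List Bool => (unbits α y).elim ([] : List Unit)
        (fun a => List.replicate (b a) ())) :=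
      Poly.optElim (h := fun _ a => List.replicate (b a) ()) poly_unbits (Pool.Agent.NPC.Poly.const _)
        (Poly.comp hb (Poly.snd Poly.id))
    exact h4.congr fun y => by rcases h : unbits α y with _ | a <;> simp only [h] <;> rfl
  refine ⟨_, IsPSPACE.exists_short (hL.precomp h2) h3, fun a => ?_⟩
  simp only [Set.mem_ofPred_eq, unpair_pairBits, unbits_bits]
  refine exists_congr fun w => and_congr Iff.rfl ?_
  rw [h]
  rfl

theorem psAll {P : List Bool × α → Prop} (h : PSt A P) {b : α → ℕ} (hb : UPoly b) :
    PSt A (fun a => ∀ w : List Bool, w.length ≤ b a → P (w, a)) :=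
  (psNot (psEx (psNot h) hb)).congr fun a => by simp

open Classical in
/-- Polynomial space is closed under truth-table reductions. -/
theorem psTt {L : Set (List Bool)} (hL : IsPSPACE A L) {X : α → List (List Bool)}
    (hX : Poly X) {F : α × List Bool → Bool} (hF : Poly F) :
    PSt A (fun a => F (a, (X a).map (fun x => decide (x ∈ L))) = true) := by
  -- variables: (z, w, a)
  have hz : Poly (fun v : List Bool × List Bool × α => v.1) := Poly.fst Poly.id
  have hw : Poly (fun v : List Bool × List Bool × α => v.2.1) := Poly.fst (Poly.snd Poly.id)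
  have ha : Poly (fun v : List Bool × List Bool × α => v.2.2) := Poly.snd (Poly.snd Poly.id)
  have hXa : Poly (fun v : List Bool × List Bool × α => X v.2.2) := hX.comp ha
  have hlen : Poly (fun v : List Bool × List Bool × α => v.1.length) := Poly.length hz
  have p1 : PSt A (fun v : List Bool × List Bool × α => (X v.2.2).getD v.1.length [] ∈ L) :=
    psPre (psOfL hL) (Poly.getD hXa hlen (Pool.Agent.NPC.Poly.const []))
  have p2 : PSt A (fun v : List Bool × List Bool × α =>
      if v.2.1.getD v.1.length false = true then (X v.2.2).getD v.1.length [] ∈ L else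
        ¬ (X v.2.2).getD v.1.length [] ∈ L) :=
    psIte p1 (psNot p1) (Poly.getD hw hlen (Pool.Agent.NPC.Poly.const false))
  have p3 : PSt A (fun v : List Bool × List Bool × α =>
      (decide (v.2.1.length = (X v.2.2).length) && F (v.2.2, v.2.1)) = true) :=
    psOfPH (PHt.ofPoly (Poly.and (Poly.decide_eq (Poly.length hw) (Poly.length hXa))
      (hF.comp (Poly.pair ha hw))))
  have p4 := psIte p2 p3 (C := fun v => decide (v.1.length < (X v.2.2).length))
    (Poly.decide_lt hlen (Poly.length hXa))
  have p5 := psEx (psAll p4 (b := fun v => (X v.2).length)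
    (UPoly.length (hX.comp (Poly.snd Poly.id)))) (b := fun a => (X a).length) (UPoly.length hX)
  refine p5.congr fun a => ?_
  constructor
  · intro h
    refine ⟨(X a).map (fun x => decide (x ∈ L)), by simp, fun z hz => ?_⟩
    split_ifs with h1 h2
    · have h1' : z.length < (X a).length := by simpa using h1
      simp only [List.getD_eq_getElem?_getD, List.getElem?_map,
        List.getElem?_eq_getElem h1', Option.map_some, Option.getD_some] at h2 ⊢
      simpa using h2
    · have h1' : z.length < (X a).length := by simpa using h1
      simp only [List.getD_eq_getElem?_getD, List.getElem?_map,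
        List.getElem?_eq_getElem h1', Option.map_some, Option.getD_some] at h2 ⊢
      simpa using h2
    · simp [h]
  · rintro ⟨w, hw, h⟩
    have h1 := h (List.replicate (X a).length false) (by simp)
    simp only [List.length_replicate, lt_self_iff_false, decide_false, Bool.false_eq_true,
      if_false, Bool.and_eq_true, decide_eq_true_eq] at h1
    obtain ⟨h2, h3⟩ := h1
    have h4 : w = (X a).map (fun x => decide (x ∈ L)) := by
      apply List.ext_getElem (by simpa using h2)
      intro i hi hi'
      have hi2 : i < (X a).length := by rw [← h2]; exact hi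
      have h5 := h (List.replicate i false) (by simpa using hi2.le)
      simp only [List.length_replicate, hi2, decide_true, if_true, List.getD_eq_getElem?_getD,
        List.getElem?_eq_getElem hi, List.getElem?_eq_getElem hi2, Option.getD_some] at h5
      rw [List.getElem_map]
      split_ifs at h5 with h6
      · rw [h6]
        simp [h5]
      · rw [Bool.not_eq_true] at h6
        rw [h6]
        simp [h5]
    rw [← h4]
    exact h3

end

end H70.PHS
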