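import Pool.Agent.Helper70K1.PHS.Adv
import Pool.Agent.Helper70K1.PHS.PS

/-! Languages for which labellings are refuted are in the hierarchy with polynomial advice. -/

set_option autoImplicit false

namespace H70.PHS

open Pool.Agent.NPC Pool.Agent.H622R2 Pool.Agent.H620R2.Gauge Pool.Agent.Helper67.PHP

/-- the type of the advice: the parameter, a string as long as the bounds, `N`, the labelled
strings, the lists -/
abbrev AT : Type :=
  List Bool × List Bool × ℕ × List (List Bool × Bool) × List (List (List Bool))

/-- decode a witness -/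
def wit (w : List Bool) : List Bool × List (List Bool × Bool) :=
  (unbits (List Bool × List (List Bool × Bool)) w).getD ([], [])

theorem poly_wit : Poly wit := Poly.optGetD poly_unbits (Pool.Agent.NPC.Poly.const _)

variable {A : Oracle} (Q : List Bool × List (List Bool × Bool) → Prop)

/-- the test with coded witnesses -/
def TstC (Y : List (List Bool)) (x : List Bool) (g : AT) : Prop :=
  ∃ w : List Bool, w.length ≤ g.2.1.length ∧
    (((decide ((wit w).1.length = Y.length) && ((wit w).2.all fun a => decide (a ∈ g.2.2.2.1))) &&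
      decide (Y.length + 1 + (wit w).2.length = g.2.2.1)) = true ∧
      Q (g.1, (Y.zip (wit w).1 ++ [(x, false)]) ++ (wit w).2))

variable {Q}

theorem ph_tstC (hQ : PHt A Q) :
    PHt A (fun v : List (List Bool) × List Bool × AT => TstC Q v.1 v.2.1 v.2.2) := by
  have hw : Poly (fun v : List Bool × List (List Bool) × List Bool × AT => v.1) := Poly.fst Poly.id
  have hY : Poly (fun v : List Bool × List (List Bool) × List Bool × AT => v.2.1) :=
    Poly.fst (Poly.snd Poly.id)
  have hx : Poly (fun v : List Bool × List (List Bool) × List Bool × AT => v.2.2.1) :=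
    Poly.fst (Poly.snd (Poly.snd Poly.id))
  have hg : Poly (fun v : List Bool × List (List Bool) × List Bool × AT => v.2.2.2) :=
    Poly.snd (Poly.snd (Poly.snd Poly.id))
  have hG := Poly.fst hg
  have hN := Poly.fst (Poly.snd (Poly.snd hg))
  have hT := Poly.fst (Poly.snd (Poly.snd (Poly.snd hg)))
  have hb := Poly.fst (poly_wit.comp hw)
  have he := Poly.snd (poly_wit.comp hw)
  have c1 := Poly.decide_eq (Poly.length hb) (Poly.length hY)
  have c2 : Poly (fun v : List Bool × List (List Bool) × List Bool × AT =>
      (wit v.1).2.all fun a => decide (a ∈ v.2.2.2.2.2.2.1)) :=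
    Poly.all (p := fun v a => decide (a ∈ v.2.2.2.2.2.2.1)) he
      ((Poly.decide_mem (Poly.snd Poly.id) (hT.comp (Poly.fst Poly.id))).congr
        fun _ => by congr)
  have c3 := Poly.decide_eq (Poly.add (Poly.add (Poly.length hY) (Pool.Agent.NPC.Poly.const 1))
    (Poly.length he)) hN
  have h1 : PHt A (fun v : List Bool × List (List Bool) × List Bool × AT =>
      (((decide ((wit v.1).1.length = v.2.1.length) &&
        ((wit v.1).2.all fun a => decide (a ∈ v.2.2.2.2.2.2.1))) &&
      decide (v.2.1.length + 1 + (wit v.1).2.length = v.2.2.2.2.2.1)) = true)) :=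
    PHt.ofPoly (Poly.and (Poly.and c1 c2) c3)
  have h2 : PHt A (fun v : List Bool × List (List Bool) × List Bool × AT =>
      Q (v.2.2.2.1, (v.2.1.zip (wit v.1).1 ++ [(v.2.2.1, false)]) ++ (wit v.1).2)) :=
    hQ.pre (f := fun v : List Bool × List (List Bool) × List Bool × AT =>
      (v.2.2.2.1, (v.2.1.zip (wit v.1).1 ++ [(v.2.2.1, false)]) ++ (wit v.1).2))
      (Poly.pair hG (Poly.append (Poly.append (Poly.zip hY hb)
        (Poly.cons (Poly.pair hx (Pool.Agent.NPC.Poly.const false)) (Pool.Agent.NPC.Poly.const []))) he))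
  exact (h1.and h2).ex (b := fun v => v.2.2.2.1.length)
    (UPoly.length (Poly.fst (Poly.snd (Poly.snd (Poly.snd Poly.id)))))

variable (Q)

/-- the number of `true` in a list -/
def cnt (s : List Bool) : ℕ := (s.filter fun b => b).length

theorem poly_cnt : Poly cnt := Poly.length (Poly.filter (p := fun _ b => b) Poly.id (Poly.snd Poly.id))

/-- the majority of the tests -/
def MajC (x : List Bool) (g : AT) : Prop :=
  ∃ s : List Bool, s.length ≤ g.2.2.2.2.length ∧
    ((decide (s.length = g.2.2.2.2.length) && decide (g.2.2.2.2.length < 2 * cnt s)) = true ∧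
    ∀ i : List Bool, i.length ≤ g.2.2.2.2.length →
      (decide (i.length < g.2.2.2.2.length) = true →
        (s.getD i.length false = true ↔ TstC Q (g.2.2.2.2.getD i.length []) x g)))

variable {Q}

theorem ph_majC (hQ : PHt A Q) : PHt A (fun v : List Bool × AT => MajC Q v.1 v.2) := by
  have hx : Poly (fun v : List Bool × List Bool × List Bool × AT => v.2.2.1) :=
    Poly.fst (Poly.snd (Poly.snd Poly.id))
  have hg : Poly (fun v : List Bool × List Bool × List Bool × AT => v.2.2.2) :=
    Poly.snd (Poly.snd (Poly.snd Poly.id))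
  have hs : Poly (fun v : List Bool × List Bool × List Bool × AT => v.2.1) :=
    Poly.fst (Poly.snd Poly.id)
  have hi : Poly (fun v : List Bool × List Bool × List Bool × AT => v.1) := Poly.fst Poly.id
  have hys := Poly.snd (Poly.snd (Poly.snd (Poly.snd hg)))
  have p1 : PHt A (fun v : List Bool × List Bool × List Bool × AT =>
      (decide (v.1.length < v.2.2.2.2.2.2.2.length) = true)) :=
    PHt.ofPoly (Poly.decide_lt (Poly.length hi) (Poly.length hys))
  have p2 : PHt A (fun v : List Bool × List Bool × List Bool × AT =>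
      v.2.1.getD v.1.length false = true) :=
    PHt.ofPoly (Poly.getD hs (Poly.length hi) (Pool.Agent.NPC.Poly.const false))
  have p3 : PHt A (fun v : List Bool × List Bool × List Bool × AT =>
      TstC Q (v.2.2.2.2.2.2.2.getD v.1.length []) v.2.2.1 v.2.2.2) :=
    (ph_tstC hQ).pre (f := fun v : List Bool × List Bool × List Bool × AT =>
      (v.2.2.2.2.2.2.2.getD v.1.length [], v.2.2.1, v.2.2.2))
      (Poly.pair (Poly.getD hys (Poly.length hi) (Pool.Agent.NPC.Poly.const [])) (Poly.pair hx hg))
  have q1 := (p1.imp (p2.iff p3)).all (b := fun v : List Bool × List Bool × AT =>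
    v.2.2.2.2.2.2.length)
    (UPoly.length (Poly.snd (Poly.snd (Poly.snd (Poly.snd (Poly.snd (Poly.snd Poly.id)))))))
  have hs' : Poly (fun v : List Bool × List Bool × AT => v.1) := Poly.fst Poly.id
  have hys' : Poly (fun v : List Bool × List Bool × AT => v.2.2.2.2.2.2) :=
    Poly.snd (Poly.snd (Poly.snd (Poly.snd (Poly.snd (Poly.snd Poly.id)))))
  have q2 : PHt A (fun v : List Bool × List Bool × AT =>
      (decide (v.1.length = v.2.2.2.2.2.2.length) &&
        decide (v.2.2.2.2.2.2.length < 2 * cnt v.1)) = true) :=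
    PHt.ofPoly (Poly.and (Poly.decide_eq (Poly.length hs') (Poly.length hys'))
      (Poly.decide_lt (Poly.length hys') (Poly.mul (Pool.Agent.NPC.Poly.const 2) (poly_cnt.comp hs'))))
  exact (q2.and q1).ex (b := fun v : List Bool × AT => v.2.2.2.2.2.length)
    (UPoly.length (Poly.snd (Poly.snd (Poly.snd (Poly.snd (Poly.snd Poly.id))))))

theorem cnt_map {α : Type} (l : List α) (f : α → Bool) : cnt (l.map f) = l.countP f := by
  unfold cnt
  rw [List.filter_map, List.length_map, List.countP_eq_length_filter]
  rfl

open Classical in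
theorem majC_iff (x : List Bool) (g : AT) : MajC Q x g ↔
    g.2.2.2.2.length < 2 * g.2.2.2.2.countP (fun Y => decide (TstC Q Y x g)) := by
  unfold MajC
  constructor
  · rintro ⟨s, _, h1, h2⟩
    simp only [Bool.and_eq_true, decide_eq_true_eq] at h1 h2
    obtain ⟨h1, h3⟩ := h1
    have h4 : s = g.2.2.2.2.map (fun Y => decide (TstC Q Y x g)) := by
      apply List.ext_getElem (by simpa using h1)
      intro i hi hi'
      have hi2 : i < g.2.2.2.2.length := by rw [← h1]; exact hi
      have h5 := h2 (List.replicate i false) (by simpa using hi2.le) (by simpa using hi2)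
      simp only [List.length_replicate, List.getD_eq_getElem?_getD,
        List.getElem?_eq_getElem hi, List.getElem?_eq_getElem hi2, Option.getD_some] at h5
      rw [List.getElem_map]
      apply Bool.eq_iff_iff.2
      rw [h5, decide_eq_true_eq]
    rwa [h4, cnt_map] at h3
  · intro h
    refine ⟨g.2.2.2.2.map (fun Y => decide (TstC Q Y x g)), by simp, ?_, ?_⟩
    · rw [cnt_map]
      simpa using h
    · intro i _ hi
      rw [decide_eq_true_eq] at hi
      simp only [List.getD_eq_getElem?_getD, List.getElem?_map,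
        List.getElem?_eq_getElem hi, Option.map_some, Option.getD_some, decide_eq_true_eq]

theorem sz_pairBool_le (a : List Bool × Bool) {n : ℕ} (h : a.1.length = n) :
    sz a ≤ 4 * n + 5 := by
  obtain ⟨a, b⟩ := a
  have h1 := sz_listBool_le a
  have h2 := sz_bool_le b
  simp only at h
  rw [sz_pair]
  omega

theorem sz_lab_le (l : List (List Bool × Bool)) {n : ℕ} (h : ∀ a ∈ l, a.1.length = n) :
    sz l ≤ l.length * (4 * n + 6) + 1 :=
  sz_le_length_mul l (4 * n + 5) fun a ha => sz_pairBool_le a (h a ha)

/-- the bound for the witnesses -/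
def wb (n N : ℕ) : ℕ := (4 * N + 1) + (N * (4 * n + 6) + 1) + 1

theorem tstC_iff {n N : ℕ} {G : List Bool} {T : List (List Bool × Bool)}
    {ys : List (List (List Bool))} {z : List Bool} (hz : z.length = wb n N)
    (hT : ∀ a ∈ T, a.1.length = n) {Y : List (List Bool)} (x : List Bool) :
    TstC Q Y x (G, z, N, T, ys) ↔ Tst (fun l => Q (G, l)) T N Y x := by
  unfold TstC Tst Rel
  simp only [Bool.and_eq_true, decide_eq_true_eq, List.all_eq_true]
  constructor
  · rintro ⟨w, _, ⟨⟨h1, h2⟩, h3⟩, h4⟩
    refine ⟨(wit w).1, h1, (wit w).2, h2, ?_, h4⟩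
    rw [List.length_append, List.length_zip, h1, min_self, List.length_singleton]
    exact h3
  · rintro ⟨b, hb, e, h2, h3, h4⟩
    rw [List.length_append, List.length_zip, hb, min_self, List.length_singleton] at h3
    have hw : wit (bits (b, e)) = (b, e) := by
      unfold wit
      rw [unbits_bits]
      rfl
    refine ⟨bits (b, e), ?_, ?_⟩
    · rw [bits_length, sz_pair, hz]
      have h5 := sz_listBool_le b
      have h6 := sz_lab_le e (fun a ha => hT a (h2 a ha))
      have h7 : e.length * (4 * n + 6) ≤ N * (4 * n + 6) := Nat.mul_le_mul_right _ (by omega)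
      unfold wb
      omega
    · rw [hw]
      exact ⟨⟨⟨hb, h2⟩, h3⟩, h4⟩

theorem sz_adv_le {n N : ℕ} {G : List Bool} {T : List (List Bool × Bool)}
    {ys : List (List (List Bool))} {z : List Bool} (hz : z.length = wb n N)
    (hT : ∀ a ∈ T, a.1.length = n) (hTl : T.length ≤ N * (2 * (n * N) + 1))
    (hys : ys.length = 2 * (6 * n + 1)) (hY : ∀ Y ∈ ys, Y.length ≤ N ∧ ∀ y ∈ Y, y.length = n) :
    sz ((G, z, N, T, ys) : AT) ≤ (4 * G.length + 1) + ((4 * wb n N + 1) + ((4 * N + 1) +
      (N * (2 * (n * N) + 1) * (4 * n + 6) + 1 +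
        (2 * (6 * n + 1) * ((N * (4 * n + 2) + 1) + 1) + 1) + 1) + 1) + 1) + 1 := by
  rw [sz_pair, sz_pair, sz_pair, sz_pair]
  have h1 := sz_listBool_le G
  have h2 := sz_listBool_le z
  have h3 : sz N ≤ 4 * N + 1 := (sz_nat_le N).trans (by
    have : N.size ≤ N := Nat.size_le.2 Nat.lt_two_pow_self
    omega)
  have h4 := sz_lab_le T hT
  have h5 : T.length * (4 * n + 6) ≤ N * (2 * (n * N) + 1) * (4 * n + 6) :=
    Nat.mul_le_mul_right _ hTl
  have h6 : sz ys ≤ ys.length * ((N * (4 * n + 2) + 1) + 1) + 1 := by
    apply sz_le_length_mul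
    intro Y hYm
    obtain ⟨h7, h8⟩ := hY Y hYm
    refine (sz_le_length_mul Y (4 * n + 1) fun y hy => ?_).trans ?_
    · have := sz_listBool_le y
      rw [h8 y hy] at this
      exact this
    · have : Y.length * (4 * n + 1 + 1) ≤ N * (4 * n + 2) := Nat.mul_le_mul h7 (by omega)
      omega
  rw [hys] at h6
  rw [hz] at h2
  omega

/-- If labellings of all lists of `N n` strings of length `n` are refuted, then the language is in
the hierarchy with polynomial advice. -/
theorem phpoly_of_mc {L : Set (List Bool)} (hQ : PHt A Q)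
    (G : ℕ → List Bool) (pG : Polynomial ℕ) (hG : ∀ n, (G n).length ≤ pG.eval n)
    (N : ℕ → ℕ) (pN : Polynomial ℕ) (hN : ∀ n, N n ≤ pN.eval n)
    (sound : ∀ n (l : List (List Bool × Bool)), (∀ e ∈ l, e.1.length = n) → Q (G n, l) →
      ∃ e ∈ l, ¬ (e.2 = true ↔ e.1 ∈ L))
    (total : ∀ n (X : List (List Bool)), (∀ x ∈ X, x.length = n) → X.length = N n →
      ∃ v : List Bool, v.length = N n ∧ Q (G n, X.zip v)) : IsPHpoly A L := by
  classical
  have key : ∀ n, Fin1 L (fun l => Q (G n, l)) n (N n) := fun n =>
    exists_adv (sound n) (total n)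
  choose T ys hT1 hT2 hys1 hys2 hfin using key
  let adv : ℕ → AT := fun n => (G n, List.replicate (wb n (N n)) false, N n, T n, ys n)
  have hdec : Poly (fun y : List Bool => ((unpair y).1,
      (unbits AT (unpair y).2).getD (([], [], 0, [], []) : AT))) :=
    Poly.pair (Poly.fst poly_unpair) (Poly.optGetD (poly_unbits.comp (Poly.snd poly_unpair))
      (Pool.Agent.NPC.Poly.const _))
  have hPH := ((ph_majC hQ).pre hdec).isPH
  let pw : Polynomial ℕ := (Polynomial.C 4 * pN + Polynomial.C 1) +
    (pN * (Polynomial.C 4 * Polynomial.X + Polynomial.C 6) + Polynomial.C 1) + Polynomial.C 1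
  let pa : Polynomial ℕ := (Polynomial.C 4 * pG + Polynomial.C 1) + ((Polynomial.C 4 * pw +
    Polynomial.C 1) + ((Polynomial.C 4 * pN + Polynomial.C 1) +
      (pN * (Polynomial.C 2 * (Polynomial.X * pN) + Polynomial.C 1) *
        (Polynomial.C 4 * Polynomial.X + Polynomial.C 6) + Polynomial.C 1 +
        (Polynomial.C 2 * (Polynomial.C 6 * Polynomial.X + Polynomial.C 1) *
          ((pN * (Polynomial.C 4 * Polynomial.X + Polynomial.C 2) + Polynomial.C 1) +
            Polynomial.C 1) + Polynomial.C 1) + Polynomial.C 1) + Polynomial.C 1) +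
              Polynomial.C 1) + Polynomial.C 1
  refine ⟨_, fun n => bits (adv n), pa, hPH, fun n => ?_, fun x => ?_⟩
  · rw [bits_length]
    refine (sz_adv_le (n := n) (N := N n) (List.length_replicate ..) (hT2 n) (hT1 n) (hys1 n)
      (hys2 n)).trans ?_
    have e1 : wb n (N n) ≤ pw.eval n := by
      simp only [pw, wb, Polynomial.eval_add, Polynomial.eval_mul, Polynomial.eval_C,
        Polynomial.eval_X]
      have := hN n
      gcongr
    simp only [pa, Polynomial.eval_add, Polynomial.eval_mul, Polynomial.eval_C,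
      Polynomial.eval_X]
    have h1 := hN n
    have h2 := hG n
    gcongr
  · show _ ↔ MajC Q (unpair (pairBits x (bits (adv x.length)))).1
      ((unbits AT (unpair (pairBits x (bits (adv x.length)))).2).getD _)
    rw [unpair_pairBits, unbits_bits, Option.getD_some, majC_iff, hfin x.length x rfl]
    have e2 : ∀ Y ∈ ys x.length, (TstC Q Y x (adv x.length) ↔
        Tst (fun l => Q (G x.length, l)) (T x.length) (N x.length) Y x) := fun Y _ =>
      tstC_iff (List.length_replicate ..) (hT2 _) x
    have e3 : (ys x.length).countP (fun Y => decide (TstC Q Y x (adv x.length))) =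
        (ys x.length).countP (fun Y => decide (Tst (fun l => Q (G x.length, l)) (T x.length)
          (N x.length) Y x)) := by
      apply List.countP_congr
      intro Y hY
      simp only [decide_eq_true_eq]
      exact e2 Y hY
    show _ ↔ (ys x.length).length < 2 * (ys x.length).countP _
    rw [e3]

end H70.PHS
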