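import Pool.Agent.Helper70K1.PHS.MC
import Pool.Agent.Helper70K1.PHS.Defs

/-! From refuted labellings among many strings to the hierarchy with polynomial advice. -/

set_option autoImplicit false

namespace H70.PHS

open Pool.Agent.NPC Pool.Agent.H622R2 Pool.Agent.H620R2.Gauge Pool.Agent.Helper67.PHP

theorem poly_code {α β : Type} [TEnc α] [TEnc β] {f : α → β} (hf : Pool.Agent.NPC.Poly f) :
    Pool.Agent.NPC.Poly (fun a => bits (f a)) := by
  have h2 : PC (bits : β → List Bool) (fun x : List Bool => x) (fun b => bits b) := by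
    obtain ⟨c, q, h⟩ := (PC.id : PC (bits : β → List Bool) (bits : β → List Bool) fun a => a)
    exact ⟨c, q, h⟩
  have h3 : Pool.Agent.NPC.Poly (fun b : β => bits b) :=
    PC.comp (g := fun x => x) (f := fun b : β => bits b) PC.rawIn h2
  exact h3.comp hf

/-! ### Advice -/

theorem phpolyPre {A : Oracle} {L : Set (List Bool)} (h : IsPHpoly A L)
    {g : List Bool → List Bool} (hg : Poly g) : IsPHpoly A {y | g y ∈ L} := by
  obtain ⟨L', h, p, hL', hh, hx⟩ := h
  obtain ⟨q, hq⟩ := length_le_of_poly hg
  have h1 : Poly (fun z : List Bool => g (unpair z).1) := hg.comp (Poly.fst poly_unpair)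
  have h2 : Poly (fun z : List Bool => (unbits (List (List Bool)) (unpair z).2).getD []) :=
    Poly.optGetD (poly_unbits.comp (Poly.snd poly_unpair)) (Pool.Agent.NPC.Poly.const _)
  have h3 : Poly (fun z : List Bool => pairBits (g (unpair z).1)
      (((unbits (List (List Bool)) (unpair z).2).getD []).getD (g (unpair z).1).length [])) :=
    poly_pairBits h1 (Poly.getD h2 (Poly.length h1) (Pool.Agent.NPC.Poly.const []))
  refine ⟨_, fun n => bits ((List.range (q.eval n + 1)).map h),
    (q + Polynomial.C 1) * (Polynomial.C 4 * p.comp q + Polynomial.C 2) + Polynomial.C 1,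
    phPrecomp hL' h3, fun n => ?_, fun x => ?_⟩
  · rw [bits_length]
    refine (sz_le_length_mul _ (4 * p.eval (q.eval n) + 1) ?_).trans ?_
    · intro a ha
      obtain ⟨i, hi, rfl⟩ := List.mem_map.1 ha
      rw [List.mem_range] at hi
      have e1 := sz_listBool_le (h i)
      have e2 := hh i
      have e3 : p.eval i ≤ p.eval (q.eval n) := eval_mono p (by omega)
      omega
    · rw [List.length_map, List.length_range]
      simp only [Polynomial.eval_add, Polynomial.eval_mul, Polynomial.eval_C,
        Polynomial.eval_comp]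
      exact le_of_eq (by ring)
  · show g x ∈ L ↔ pairBits (g (unpair (pairBits x _)).1)
      (((unbits (List (List Bool)) (unpair (pairBits x _)).2).getD []).getD
        (g (unpair (pairBits x _)).1).length []) ∈ L'
    rw [unpair_pairBits, unbits_bits, Option.getD_some, hx]
    have e1 : (g x).length < q.eval x.length + 1 := Nat.lt_succ_of_le (hq x)
    have e2 : ((List.range (q.eval x.length + 1)).map h).getD (g x).length [] =
        h (g x).length := by
      rw [List.getD_eq_getElem?_getD, List.getElem?_map, List.getElem?_range e1]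
      rfl
    rw [e2]

theorem phpolyAnd {A : Oracle} {L P : Set (List Bool)} (h : IsPHpoly A L) (hP : IsPH A P) :
    IsPHpoly A {y | y ∈ L ∧ y ∈ P} := by
  obtain ⟨L', h, p, hL', hh, hx⟩ := h
  refine ⟨_, h, p, phInter hL' (phPrecomp hP (Poly.fst poly_unpair)), hh, fun x => ?_⟩
  show x ∈ L ∧ x ∈ P ↔ pairBits x (h x.length) ∈ L' ∧ (unpair (pairBits x (h x.length))).1 ∈ P
  rw [unpair_pairBits, hx]

/-! ### The inner product -/

/-- the inner product modulo 2 -/
def ip (a b : List Bool) : Bool := (a.zip b).foldr (fun p s => ((p.1 && p.2) ^^ s)) false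

@[simp] theorem ip_nil (b : List Bool) : ip [] b = false := rfl

@[simp] theorem ip_cons (a b : Bool) (s t : List Bool) :
    ip (a :: s) (b :: t) = ((a && b) ^^ ip s t) := rfl

theorem poly_ip {α : Type} [TEnc α] {a b : α → List Bool} (ha : Poly a) (hb : Poly b) :
    Poly (fun x => ip (a x) (b x)) := by
  refine Poly.foldr (F := fun _ p s => ((p.1 && p.2) ^^ s)) (Poly.zip ha hb)
    (Pool.Agent.NPC.Poly.const false) ?_ (Polynomial.C 3) ?_
  · exact Poly.xor (Poly.and (Poly.fst (Poly.fst (Poly.snd Poly.id)))
      (Poly.snd (Poly.fst (Poly.snd Poly.id)))) (Poly.snd (Poly.snd Poly.id))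
  · intro x k _
    rw [Polynomial.eval_C]
    exact sz_bool_le _

/-- the string of a vector -/
def vec {N : ℕ} (w : Fin N → ZMod 2) : List Bool := List.ofFn fun i => decide (w i = 1)

theorem length_vec {N : ℕ} (w : Fin N → ZMod 2) : (vec w).length = N := by simp [vec]

theorem vec_injective {N : ℕ} : Function.Injective (vec : (Fin N → ZMod 2) → List Bool) := by
  intro v w h
  have h1 := List.ofFn_injective h
  funext i
  have h2 : decide (v i = 1) = decide (w i = 1) := congrFun h1 i
  have h3 : ∀ x y : ZMod 2, decide (x = 1) = decide (y = 1) → x = y := by decide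
  exact h3 _ _ h2

theorem ip_vec : ∀ {N : ℕ} (v w : Fin N → ZMod 2),
    ip (vec v) (vec w) = decide (∑ i, w i * v i = 1)
  | 0, v, w => by simp [vec]
  | N + 1, v, w => by
    have h1 : ∀ u : Fin (N + 1) → ZMod 2, vec u = decide (u 0 = 1) :: vec (fun i => u i.succ) := by
      intro u
      unfold vec
      rw [List.ofFn_succ]
    rw [h1 v, h1 w, ip_cons, ip_vec, Fin.sum_univ_succ]
    have h2 : ∀ x y z : ZMod 2, ((decide (x = 1) && decide (y = 1)) ^^ decide (z = 1)) =
      decide (y * x + z = 1) := by decide
    exact h2 _ _ _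

/-! ### The auxiliary language -/

/-- decode an instance -/
def dI (u : List Bool) : List (List Bool) × List Bool :=
  (unbits (List (List Bool) × List Bool) (unpair u).1).getD ([], [])

theorem poly_dI : Poly dI :=
  Poly.optGetD (poly_unbits.comp (Poly.fst poly_unpair)) (Pool.Agent.NPC.Poly.const _)

/-- the instance, filled up to length `m` -/
def inst (m : ℕ) (X : List (List Bool)) (w : List Bool) : List Bool :=
  pairBits (bits (X, w)) (List.replicate (m - (2 * sz (X, w) + 1)) false)

theorem dI_inst (m : ℕ) (X : List (List Bool)) (w : List Bool) : dI (inst m X w) = (X, w) := by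
  unfold dI inst
  rw [unpair_pairBits, unbits_bits]
  rfl

theorem length_inst {m : ℕ} {X : List (List Bool)} {w : List Bool} (h : 2 * sz (X, w) + 1 ≤ m) :
    (inst m X w).length = m := by
  unfold inst
  rw [length_pairBits, bits_length, List.length_replicate]
  omega

theorem poly_inst {α : Type} [TEnc α] {m : α → ℕ} {X : α → List (List Bool)}
    {w : α → List Bool} (hm : UPoly m) (hX : Poly X) (hw : Poly w) :
    Poly (fun a => inst (m a) (X a) (w a)) := by
  have h1 : Poly (fun a => bits (X a, w a)) := poly_code (Poly.pair hX hw)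
  have h2 : Poly (fun a => m a - (2 * (bits (X a, w a)).length + 1)) :=
    Poly.sub hm.toPoly (Poly.add (Poly.mul (Pool.Agent.NPC.Poly.const 2) (Poly.length h1))
      (Pool.Agent.NPC.Poly.const 1))
  have h3 : UPoly (fun a => m a - (2 * (bits (X a, w a)).length + 1)) :=
    UPoly.of_le h2 hm (fun a => Nat.sub_le _ _)
  have h4 : Poly (fun a => (List.replicate (m a - (2 * (bits (X a, w a)).length + 1)) ()).map
      (fun _ => false)) :=
    Pool.Agent.NPC.Poly.map (F := fun _ _ => false) h3 (Pool.Agent.NPC.Poly.const _)
  refine (poly_pairBits h1 h4).congr fun a => ?_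
  unfold inst
  rw [List.map_replicate, bits_length]

open Classical in
/-- the auxiliary language: the inner product of a string with the truth values -/
def KL (L : Set (List Bool)) : Set (List Bool) :=
  {u | ip ((dI u).1.map (fun x => decide (x ∈ L))) (dI u).2 = true}

theorem kl_pspace {A : Oracle} {L : Set (List Bool)} (hL : IsPSPACE A L) : IsPSPACE A (KL L) := by
  classical
  have h := psTt (α := List Bool) hL (X := fun u => (dI u).1) (Poly.fst poly_dI)
    (F := fun p => ip p.2 (dI p.1).2)
    (poly_ip (Poly.snd Poly.id) (Poly.snd (poly_dI.comp (Poly.fst Poly.id))))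
  have h2 := h.isPSPACE
  have h3 : KL L = {u | ip ((dI u).1.map (fun x => decide (x ∈ L))) (dI u).2 = true} := by
    unfold KL
    congr!
  rw [h3]
  exact h2

open Classical in
theorem inst_mem_kl {L : Set (List Bool)} (m : ℕ) (X : List (List Bool)) (w : List Bool) :
    inst m X w ∈ KL L ↔ ip (X.map (fun x => decide (x ∈ L))) w = true := by
  show ip ((dI (inst m X w)).1.map _) (dI (inst m X w)).2 = true ↔ _
  rw [dI_inst]

end H70.PHS
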