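import Pool.Agent.Helper70K1.PHS.All

/-! Sketches, and the trivial implications. -/

set_option autoImplicit false

namespace H70.PHS

open Pool.Agent.NPC Pool.Agent.H622R2 Pool.Agent.H620R2.Gauge Pool.Agent.Helper67.PHP

/-- The pairs of strings with the same value of `f`. -/
def Kernel (f : List Bool → List Bool) : Set (List Bool) :=
  {z | ∃ x y : List Bool, z = pairBits x y ∧ f x = f y}

/-- the entry of a labelled list -/
def ent (i : ℕ) (y : List Bool) : List Bool × Bool := (dLab y).getD i ([], false)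

theorem poly_ent (i : ℕ) : Poly (ent i) :=
  Poly.getD poly_dLab (Pool.Agent.NPC.Poly.const i) (Pool.Agent.NPC.Poly.const _)

/-! ### Sketches -/

/-- the labellings refuted by a sketch -/
def RSk (f : List Bool → List Bool) : Set (List Bool) :=
  {y | ∃ (u v : List Bool) (b : Bool), y = bits [(u, b), (v, !b)] ∧ u.length = v.length ∧ f u = f v}

/-- the form of the labellings refuted by a sketch -/
def skC (y : List Bool) : Bool :=
  (decide (bits (dLab y) = y) && decide ((dLab y).length = 2)) &&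
    (decide ((ent 0 y).1.length = (ent 1 y).1.length) && ((ent 0 y).2 ^^ (ent 1 y).2))

theorem poly_skC : Poly skC :=
  Poly.and (Poly.and (Poly.decide_eq (poly_code poly_dLab) Poly.id)
    (Poly.decide_eq (Poly.length poly_dLab) (Pool.Agent.NPC.Poly.const 2)))
    (Poly.and (Poly.decide_eq (Poly.length (Poly.fst (poly_ent 0)))
      (Poly.length (Poly.fst (poly_ent 1)))) (Poly.xor (Poly.snd (poly_ent 0))
        (Poly.snd (poly_ent 1))))

theorem pairBits_inj {x y x' y' : List Bool} (h : pairBits x y = pairBits x' y') :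
    x = x' ∧ y = y' := by
  have h1 := congrArg unpair h
  rw [unpair_pairBits, unpair_pairBits] at h1
  exact ⟨congrArg Prod.fst h1, congrArg Prod.snd h1⟩

theorem rsk_iff (f : List Bool → List Bool) (y : List Bool) :
    y ∈ RSk f ↔ pairBits (ent 0 y).1 (ent 1 y).1 ∈ Kernel f ∧ skC y = true := by
  unfold skC
  simp only [Bool.and_eq_true, decide_eq_true_eq]
  constructor
  · rintro ⟨u, v, b, rfl, h1, h2⟩
    have e0 : ent 0 (bits [(u, b), (v, !b)]) = (u, b) := by unfold ent; rw [dLab_bits]; rfl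
    have e1 : ent 1 (bits [(u, b), (v, !b)]) = (v, !b) := by unfold ent; rw [dLab_bits]; rfl
    rw [e0, e1, dLab_bits]
    exact ⟨⟨u, v, rfl, h2⟩, ⟨rfl, rfl⟩, h1, by cases b <;> rfl⟩
  · rintro ⟨⟨x, x', hx, hf⟩, ⟨h1, h2⟩, h3, h4⟩
    obtain ⟨e1, e2⟩ := pairBits_inj hx
    obtain ⟨a, a', ha⟩ := List.length_eq_two.1 h2
    have e0 : ent 0 y = a := by unfold ent; rw [ha]; rfl
    have e1' : ent 1 y = a' := by unfold ent; rw [ha]; rfl
    refine ⟨a.1, a'.1, a.2, ?_, by rw [← e0, ← e1', h3], ?_⟩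
    · rw [← h1, ha]
      have h5 : a'.2 = !a.2 := by
        rw [e0, e1'] at h4
        revert h4
        cases a.2 <;> cases a'.2 <;> simp
      rw [← h5]
    · rw [e0] at e1
      rw [e1'] at e2
      rw [e1, e2, hf]

theorem rsk_phpoly {A : Oracle} {f : List Bool → List Bool} (h : IsPHpoly A (Kernel f)) :
    IsPHpoly A (RSk f) := by
  have h1 : Poly (fun y : List Bool => pairBits (ent 0 y).1 (ent 1 y).1) :=
    poly_pairBits (Poly.fst (poly_ent 0)) (Poly.fst (poly_ent 1))
  have h2 := phpolyAnd (phpolyPre h h1) (phOfPoly (A := A) poly_skC)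
  convert h2 using 1
  ext y
  exact rsk_iff f y

theorem rsk_refutes {K : Set (List Bool)} {f : List Bool → List Bool} (h : Decides K f) :
    Refutes K (RSk f) := by
  rintro l ⟨u, v, b, h1, h2, h3⟩
  have h4 := bits_injective h1
  subst h4
  have h5 := h u v h2 h3
  by_contra hc
  push Not at hc
  have h6 := hc (u, b) (by simp)
  have h7 := hc (v, !b) (by simp)
  simp only at h6 h7
  have h8 : (b = true ↔ (!b) = true) := h6.trans (h5.trans h7.symm)
  revert h8
  cases b <;> simp

theorem rsk_dense {f : List Bool → List Bool} {m s : ℕ}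
    (h : ∀ x : List Bool, x.length = m → (f x).length ≤ s) : Dense (RSk f) m 2 (2 ^ (s + 1)) := by
  intro W hW hc
  obtain ⟨S, hS1, hS2⟩ := card_short s
  obtain ⟨u, hu, v, hv, huv, hf⟩ := Finset.exists_ne_map_eq_of_card_lt_of_maps_to
    (hS2.trans_le hc) (f := f) (fun x hx => hS1 _ (h x (hW x hx)))
  refine ⟨[(u, true), (v, false)], le_rfl, by simpa using huv, ?_, u, v, true, rfl, ?_, hf⟩
  · intro e he
    simp only [List.mem_cons, List.not_mem_nil, or_false] at he
    rcases he with rfl | rfl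
    · exact hu
    · exact hv
  · rw [hW u hu, hW v hv]

theorem phpoly_of_sketch {A : Oracle} {L : Set (List Bool)} {f : List Bool → List Bool}
    (hf : IsPHpoly A (Kernel f)) (hd : Decides (KL L) f) {ε : ℝ} (hε : 0 < ε)
    (h : ∀ᶠ m : ℕ in Filter.atTop, ∀ x : List Bool, x.length = m →
      ((f x).length : ℝ) ≤ (m : ℝ) ^ (1 - ε)) : IsPHpoly A L := by
  set ε₁ := min ε 1 with hε₁
  have h0 : 0 < ε₁ := lt_min hε one_pos
  have h1 : ε₁ ≤ 1 := min_le_right _ _
  have ht : Filter.Tendsto (fun m : ℕ => (m : ℝ) ^ (ε₁ / 2)) Filter.atTop Filter.atTop :=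
    (tendsto_rpow_atTop (by positivity)).comp tendsto_natCast_atTop_atTop
  refine phpoly_of_gen (rsk_phpoly hf) (rsk_refutes hd) (ε := ε₁ / 2) (by positivity)
    (q := fun _ => 2) (t := fun m => ⌊(m : ℝ) ^ (1 - ε₁)⌋₊ + 1) ?_
  filter_upwards [h, ht.eventually_ge_atTop 4, Filter.eventually_ge_atTop 1] with m hm h4 hm1
  have hmR : (1 : ℝ) ≤ (m : ℝ) := by exact_mod_cast hm1
  refine ⟨by norm_num, ?_, ?_⟩
  · have h5 : (⌊(m : ℝ) ^ (1 - ε₁)⌋₊ : ℝ) ≤ (m : ℝ) ^ (1 - ε₁) :=
      Nat.floor_le (Real.rpow_nonneg (by positivity) _)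
    have h6 : (1 : ℝ) ≤ (m : ℝ) ^ (1 - ε₁) := Real.one_le_rpow hmR (by linarith)
    have h7 : (m : ℝ) ^ (1 - ε₁ / 2) = (m : ℝ) ^ (1 - ε₁) * (m : ℝ) ^ (ε₁ / 2) := by
      rw [← Real.rpow_add (by linarith)]
      congr 1
      ring
    rw [h7]
    push_cast
    nlinarith
  · apply rsk_dense
    intro x hx
    apply Nat.le_floor
    refine (hm x hx).trans ?_
    apply Real.rpow_le_rpow_of_exponent_le hmR
    have := min_le_left ε 1
    linarith

/-! ### The trivial implications -/

/-- all wrong labels -/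
def RW (K : Set (List Bool)) : Set (List Bool) :=
  {y | ∃ (x : List Bool) (b : Bool), y = bits [(x, b)] ∧ ¬ (b = true ↔ x ∈ K)}

theorem rw_ph {A : Oracle} {K : Set (List Bool)} (h : IsPH A K) : IsPH A (RW K) := by
  have p1 : PHt A (fun y : List Bool =>
      (decide (bits (dLab y) = y) && decide ((dLab y).length = 1)) = true) :=
    PHt.ofPoly (Poly.and (Poly.decide_eq (poly_code poly_dLab) Poly.id)
      (Poly.decide_eq (Poly.length poly_dLab) (Pool.Agent.NPC.Poly.const 1)))
  have p2 : PHt A (fun y : List Bool => (ent 0 y).2 = true) :=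
    PHt.ofPoly (Poly.snd (poly_ent 0))
  have p3 : PHt A (fun y : List Bool => (ent 0 y).1 ∈ K) :=
    (PHt.of_isPH h).pre (Poly.fst (poly_ent 0))
  have p4 := (p1.and ((p2.iff p3).not)).isPH
  convert p4 using 1
  ext y
  simp only [Bool.and_eq_true, decide_eq_true_eq, Set.mem_ofPred_eq]
  constructor
  · rintro ⟨x, b, rfl, h1⟩
    have e0 : ent 0 (bits [(x, b)]) = (x, b) := by unfold ent; rw [dLab_bits]; rfl
    rw [e0, dLab_bits]
    exact ⟨⟨rfl, rfl⟩, h1⟩
  · rintro ⟨⟨h1, h2⟩, h3⟩
    obtain ⟨a, ha⟩ := List.length_eq_one_iff.1 h2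
    have e0 : ent 0 y = a := by unfold ent; rw [ha]; rfl
    rw [e0] at h3
    refine ⟨a.1, a.2, ?_, h3⟩
    rw [← h1, ha]

theorem rw_refutes (K : Set (List Bool)) : Refutes K (RW K) := by
  rintro l ⟨x, b, h1, h2⟩
  have h4 := bits_injective h1
  subst h4
  exact ⟨(x, b), by simp, h2⟩

theorem rw_dense (K : Set (List Bool)) (m : ℕ) : Dense (RW K) m 1 1 := by
  classical
  intro W _ hW
  obtain ⟨x, hx⟩ := Finset.card_pos.1 hW
  refine ⟨[(x, !(decide (x ∈ K)))], le_rfl, by simp, ?_, x, _, rfl, ?_⟩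
  · intro e he
    rw [List.mem_singleton] at he
    rw [he]
    exact hx
  · by_cases h : x ∈ K <;> simp [h]

theorem kernel_ph {A : Oracle} {K : Set (List Bool)} (h : IsPH A K) :
    ∃ f : List Bool → List Bool, IsPH A (Kernel f) ∧ Decides K f ∧ ∀ x, (f x).length = 1 := by
  classical
  refine ⟨fun x => [decide (x ∈ K)], ?_, ?_, fun _ => rfl⟩
  · have h1 : Poly (fun z : List Bool => (unpair z).1) := Poly.fst poly_unpair
    have h2 : Poly (fun z : List Bool => (unpair z).2) := Poly.snd poly_unpair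
    have p1 : PHt A (fun z : List Bool => pairBits (unpair z).1 (unpair z).2 = z) :=
      PHt.eq (poly_pairBits h1 h2) Poly.id
    have p2 : PHt A (fun z : List Bool => (unpair z).1 ∈ K) := (PHt.of_isPH h).pre h1
    have p3 : PHt A (fun z : List Bool => (unpair z).2 ∈ K) := (PHt.of_isPH h).pre h2
    have p4 := (p1.and (p2.iff p3)).isPH
    convert p4 using 1
    ext z
    simp only [Set.mem_ofPred_eq]
    constructor
    · rintro ⟨x, y, rfl, h3⟩
      rw [unpair_pairBits]
      refine ⟨rfl, ?_⟩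
      simpa using h3
    · rintro ⟨h3, h4⟩
      refine ⟨_, _, h3.symm, ?_⟩
      simpa using h4
  · intro x y _ hf
    simpa using hf

end H70.PHS
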