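import Pool.Agent.Helper70K1.PHS.Sk

/-! Refuters for few among many, or for some among polynomially many strings. -/

set_option autoImplicit false

namespace H70.PHS

open Pool.Agent.NPC Pool.Agent.H622R2 Pool.Agent.H620R2.Gauge Pool.Agent.Helper67.PHP

/-- a short labelled instance -/
def slab1 (m : ℕ) (e : List Bool × Bool) : List Bool × Bool := (inst m [e.1] [true], e.2)

/-- the short labelled instances -/
def slab (m : ℕ) (l : List (List Bool × Bool)) : List (List Bool × Bool) :=
  l.map (fun e => slab1 m e)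

theorem poly_slab1 {α : Type} [TEnc α] {m : α → ℕ} {e : α → List Bool × Bool}
    (hm : UPoly m) (he : Poly e) : Poly (fun a => slab1 (m a) (e a)) := by
  have hx : Poly (fun a => [(e a).1]) := Poly.cons (Poly.fst he) (Pool.Agent.NPC.Poly.const [])
  have ht : Poly (fun _ : α => [true]) := Pool.Agent.NPC.Poly.const [true]
  have h1 : Poly (fun a => inst (m a) [(e a).1] [true]) := poly_inst hm hx ht
  exact Poly.pair h1 (Poly.snd he)

theorem poly_slab {α : Type} [TEnc α] {m : α → ℕ} {l : α → List (List Bool × Bool)}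
    (hm : UPoly m) (hl : Poly l) : Poly (fun a => slab (m a) (l a)) := by
  have hm' : UPoly (fun p : α × (List Bool × Bool) => m p.1) := hm.comp (Poly.fst Poly.id)
  have h1 : Poly (fun p : α × (List Bool × Bool) => slab1 (m p.1) p.2) :=
    poly_slab1 hm' (Poly.snd Poly.id)
  exact Pool.Agent.NPC.Poly.map (F := fun a e => slab1 (m a) e) hl h1

/-- the code of the short labelled instances -/
def zz (c g : List Bool) : List Bool := bits (slab (dP g).2.1.length (dLab c))

/-- The labels of `l` are refuted by refuting labels of short instances. -/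
def QB (L' : Set (List Bool)) (a : List Bool × List (List Bool × Bool)) : Prop :=
  ∃ c : List Bool, c.length ≤ (dP a.1).2.2.length ∧
    ((((dLab c).all fun e => decide (e ∈ a.2)) &&
      decide ((zz c a.1).length < (dP a.1).1.length)) = true ∧
      pairBits (zz c a.1) ((dP a.1).1.getD (zz c a.1).length []) ∈ L')

theorem ph_QB {A : Oracle} {L' : Set (List Bool)} (hL' : IsPH A L') : PHt A (QB L') := by
  have hc : Poly (fun v : List Bool × List Bool × List (List Bool × Bool) => v.1) :=
    Poly.fst Poly.id
  have hg : Poly (fun v : List Bool × List Bool × List (List Bool × Bool) => dP v.2.1) :=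
    poly_dP.comp (Poly.fst (Poly.snd Poly.id))
  have hl : Poly (fun v : List Bool × List Bool × List (List Bool × Bool) => v.2.2) :=
    Poly.snd (Poly.snd Poly.id)
  have h1 : Poly (fun v : List Bool × List Bool × List (List Bool × Bool) =>
      (dLab v.1).all fun e => decide (e ∈ v.2.2)) := by
    refine Poly.all (p := fun (v : List Bool × List Bool × List (List Bool × Bool)) e =>
      decide (e ∈ v.2.2)) (poly_dLab.comp hc) ?_
    exact (Poly.decide_mem (Poly.snd Poly.id) (hl.comp (Poly.fst Poly.id))).congr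
      fun _ => by congr
  have hs : Poly (fun v : List Bool × List Bool × List (List Bool × Bool) =>
      slab (dP v.2.1).2.1.length (dLab v.1)) :=
    poly_slab (UPoly.length (Poly.fst (Poly.snd hg))) (poly_dLab.comp hc)
  have hy : Poly (fun v : List Bool × List Bool × List (List Bool × Bool) =>
      zz v.1 v.2.1) := poly_code hs
  have hH := Poly.fst hg
  have p1 : PHt A (fun v : List Bool × List Bool × List (List Bool × Bool) =>
      (((dLab v.1).all fun e => decide (e ∈ v.2.2)) &&
        decide ((zz v.1 v.2.1).length < (dP v.2.1).1.length)) = true) :=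
    PHt.ofPoly (Poly.and h1 (Poly.decide_lt (Poly.length hy) (Poly.length hH)))
  have p2 : PHt A (fun v : List Bool × List Bool × List (List Bool × Bool) =>
      pairBits (zz v.1 v.2.1) ((dP v.2.1).1.getD (zz v.1 v.2.1).length []) ∈ L') :=
    (PHt.of_isPH hL').pre (f := fun v : List Bool × List Bool × List (List Bool × Bool) =>
      pairBits (zz v.1 v.2.1) ((dP v.2.1).1.getD (zz v.1 v.2.1).length []))
      (poly_pairBits hy (Poly.getD hH (Poly.length hy) (Pool.Agent.NPC.Poly.const [])))
  exact (p1.and p2).ex (b := fun a : List Bool × List (List Bool × Bool) => (dP a.1).2.2.length)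
    (UPoly.length (Poly.snd (Poly.snd (poly_dP.comp (Poly.fst Poly.id)))))

/-- all three kinds -/
def QU (L' : Set (List Bool)) (a : List Bool × List (List Bool × Bool)) : Prop :=
  incons a.2 = true ∨ QG L' a ∨ QB L' a

theorem ph_QU {A : Oracle} {L' : Set (List Bool)} (hL' : IsPH A L') : PHt A (QU L') :=
  (PHt.ofPoly (poly_incons.comp (Poly.snd Poly.id))).or ((ph_QG hL').or (ph_QB hL'))

theorem incons_sound {L : Set (List Bool)} {l : List (List Bool × Bool)}
    (hl : incons l = true) : ∃ e ∈ l, ¬ (e.2 = true ↔ e.1 ∈ L) := by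
  unfold incons at hl
  simp only [List.any_eq_true, Bool.and_eq_true, decide_eq_true_eq] at hl
  obtain ⟨e, he, e', he', h1, h2⟩ := hl
  by_contra hc
  push Not at hc
  have h3 := hc e he
  have h4 := hc e' he'
  rw [h1] at h3
  have h5 : e.2 = e'.2 := Bool.eq_iff_iff.2 (h3.trans h4.symm)
  rw [h5] at h2
  simp at h2

theorem incons_dup {X : List (List Bool)} (hn : ¬ X.Nodup) :
    ∃ v : List Bool, v.length = X.length ∧ incons (X.zip v) = true := by
  obtain ⟨i, j, hi, hj, hij, hXij⟩ := exists_dup hn
  refine ⟨(List.range X.length).map (fun k => decide (k = i)), by simp, ?_⟩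
  unfold incons
  simp only [List.any_eq_true, Bool.and_eq_true, decide_eq_true_eq]
  rw [List.getElem?_eq_getElem hi, List.getElem?_eq_getElem hj, Option.some.injEq] at hXij
  have hm : ∀ k (hk : k < X.length), (X[k], decide (k = i)) ∈
      X.zip ((List.range X.length).map (fun k => decide (k = i))) := by
    intro k hk
    have h1 : (X.zip ((List.range X.length).map (fun k => decide (k = i))))[k]'(by
        simpa using hk) = (X[k], decide (k = i)) := by simp
    rw [← h1]
    exact List.getElem_mem _
  refine ⟨_, hm i hi, _, hm j hj, hXij, ?_⟩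
  simp [hij.symm]

section

variable {L R L' : Set (List Bool)} {h : ℕ → List Bool}
  (hx : ∀ x, x ∈ R ↔ pairBits x (h x.length) ∈ L') {B m z : ℕ}

include hx

theorem qb_iff (l : List (List Bool × Bool)) : QB L' (par h B m z, l) ↔
    ∃ c : List Bool, c.length ≤ z ∧ (∀ e ∈ dLab c, e ∈ l) ∧
      (bits (slab m (dLab c))).length < B + 1 ∧ bits (slab m (dLab c)) ∈ R := by
  unfold QB zz
  simp only [dP_par, List.length_replicate, List.length_map, List.length_range]
  apply exists_congr
  intro c
  apply and_congr_right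
  intro _
  simp only [Bool.and_eq_true, List.all_eq_true, decide_eq_true_eq, and_assoc]
  apply and_congr_right
  intro _
  apply and_congr_right
  intro h1
  rw [getD_range h1, hx]

theorem qb_sound (hR : Refutes (KL L) R) (l : List (List Bool × Bool))
    (hl : QB L' (par h B m z, l)) : ∃ e ∈ l, ¬ (e.2 = true ↔ e.1 ∈ L) := by
  rw [qb_iff hx] at hl
  obtain ⟨c, _, h2, _, h3⟩ := hl
  obtain ⟨e, he, he'⟩ := hR _ h3
  obtain ⟨e', hw, rfl⟩ := List.mem_map.1 he
  refine ⟨e', h2 _ hw, ?_⟩
  have he2 : ¬ (e'.2 = true ↔ inst m [e'.1] [true] ∈ KL L) := he'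
  rw [inst_mem_kl] at he2
  simpa using he2

theorem qu_sound (hR : Refutes (KL L) R) (l : List (List Bool × Bool))
    (hl : QU L' (par h B m z, l)) : ∃ e ∈ l, ¬ (e.2 = true ↔ e.1 ∈ L) := by
  rcases hl with hl | hl | hl
  · exact incons_sound hl
  · exact qg_sound hx hR l hl
  · exact qb_sound hx hR l hl

end

/-- Among the labels of any `s` different strings some are refuted by short instances. -/
theorem total_of_short {R : Set (List Bool)} {n m q s : ℕ} (hD : Dense R m q s)
    (hm : 2 * (1 * (4 * n + 6) + 3) + 1 ≤ m) {X : List (List Bool)}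
    (hX : ∀ x ∈ X, x.length = n) (hXl : X.length = s) (hn : X.Nodup) :
    ∃ (v : List Bool) (l : List (List Bool × Bool)), v.length = s ∧ l.length ≤ s ∧
      (∀ e ∈ l, e ∈ X.zip v) ∧ (∀ e ∈ l, e.1.length = n ∧ (inst m [e.1] [true]).length = m) ∧
      bits (slab m l) ∈ R := by
  classical
  have hlen : ∀ x ∈ X, (inst m [x] [true]).length = m := by
    intro x hxX
    apply length_inst
    have := sz_inst_le (n := n) (N := 1) (X := [x]) (w := [true]) rfl (by
      intro y hy
      rw [List.mem_singleton] at hy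
      rw [hy]
      exact hX x hxX) rfl
    omega
  set f : List Bool → List Bool := fun x => inst m [x] [true] with hf
  have hinj : Function.Injective f := by
    intro w w' hww
    have h1 := congrArg dI hww
    rw [hf] at h1
    simp only [dI_inst] at h1
    simpa using h1
  obtain ⟨l, -, hl2, hl3, hl4⟩ := hD (X.toFinset.image f) (by
    intro u hu
    obtain ⟨w, hw, rfl⟩ := Finset.mem_image.1 hu
    exact hlen w (List.mem_toFinset.1 hw)) (by
      rw [Finset.card_image_of_injective _ hinj, List.toFinset_card_of_nodup hn, hXl])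
  have hcl : l.length ≤ s := by
    have h1 : (l.map Prod.fst).toFinset ⊆ X.toFinset.image f := by
      intro u hu
      rw [List.mem_toFinset] at hu
      obtain ⟨e, he, rfl⟩ := List.mem_map.1 hu
      exact hl3 e he
    have h2 := Finset.card_le_card h1
    rw [List.toFinset_card_of_nodup hl2, List.length_map,
      Finset.card_image_of_injective _ hinj, List.toFinset_card_of_nodup hn, hXl] at h2
    exact h2
  have hws : ∀ e ∈ l, ∃ x ∈ X, e.1 = f x ∧ (dI e.1).1.headD [] = x := by
    intro e he
    obtain ⟨x, hx, hxe⟩ := Finset.mem_image.1 (hl3 e he)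
    refine ⟨x, List.mem_toFinset.1 hx, hxe.symm, ?_⟩
    rw [← hxe, hf]
    simp only [dI_inst]
    rfl
  refine ⟨X.map (fun x => decide ((f x, true) ∈ l)),
    l.map (fun e => ((dI e.1).1.headD [], e.2)), by simpa using hXl, by simpa using hcl,
    ?_, ?_, ?_⟩
  · intro e he
    obtain ⟨e', he', rfl⟩ := List.mem_map.1 he
    obtain ⟨x, hx, h1, h2⟩ := hws e' he'
    rw [h2]
    have h3 : X.zip (X.map (fun x => decide ((f x, true) ∈ l))) =
        X.map (fun x => (x, decide ((f x, true) ∈ l))) := by
      conv_lhs => rw [← List.map_id X]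
      rw [List.map_id, List.zip_map_right]
      apply List.ext_getElem <;> simp
    rw [h3]
    have h4 : e'.2 = decide ((f x, true) ∈ l) := by
      by_cases hc : (f x, true) ∈ l
      · have h5 : e' = (f x, true) := List.inj_on_of_nodup_map hl2 he' hc h1
        rw [decide_eq_true hc, h5]
      · rw [decide_eq_false hc]
        by_contra h5
        rw [Bool.not_eq_false] at h5
        apply hc
        rw [← h1, ← h5]
        exact he'
    rw [h4]
    exact List.mem_map_of_mem (f := fun x => (x, decide ((f x, true) ∈ l))) hx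
  · intro e he
    obtain ⟨e', he', rfl⟩ := List.mem_map.1 he
    obtain ⟨x, hx, h1, h2⟩ := hws e' he'
    simp only
    rw [h2]
    exact ⟨hX x hx, hlen x hx⟩
  · have h1 : slab m (l.map (fun e => ((dI e.1).1.headD [], e.2))) = l := by
      unfold slab
      rw [List.map_map]
      conv_rhs => rw [← List.map_id l]
      apply List.map_congr_left
      intro e he
      obtain ⟨x, hx, h1, h2⟩ := hws e he
      simp only [Function.comp_apply, id]
      rw [h2]
      exact Prod.ext h1.symm rfl
    rw [h1]
    exact hl4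

/-- Refuters give the hierarchy with polynomial advice. -/
theorem phpoly_of_refuter {A : Oracle} {L R : Set (List Bool)} (hR : IsPHpoly A R)
    (hRef : Refutes (KL L) R) {ε : ℝ} (hε : 0 < ε) {c : ℕ} {q t : ℕ → ℕ}
    (h : ∀ᶠ m in Filter.atTop, 1 ≤ q m ∧ Dense R m (q m) (2 ^ t m) ∧
      ((q m : ℝ) * t m ≤ (m : ℝ) ^ (1 - ε) ∨ 2 ^ t m ≤ m ^ c)) : IsPHpoly A L := by
  classical
  set q₂ : ℕ → ℕ := fun m => if (q m : ℝ) * t m ≤ (m : ℝ) ^ (1 - ε) then q m else 1 with hq₂
  set t₂ : ℕ → ℕ := fun m => if (q m : ℝ) * t m ≤ (m : ℝ) ^ (1 - ε) then t m else 0 with ht₂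
  obtain ⟨c₁, c₂, hc⟩ := exists_exps hε (q := q₂) (t := t₂) (P := fun m =>
    Dense R m (q m) (2 ^ t m) ∧ ((q m : ℝ) * t m ≤ (m : ℝ) ^ (1 - ε) ∨ 2 ^ t m ≤ m ^ c)) (by
    filter_upwards [h] with m hm
    obtain ⟨h1, h2, h3⟩ := hm
    simp only [hq₂, ht₂]
    by_cases hc : (q m : ℝ) * t m ≤ (m : ℝ) ^ (1 - ε)
    · rw [if_pos hc, if_pos hc]
      exact ⟨h1, hc, h2, h3⟩
    · rw [if_neg hc, if_neg hc]
      refine ⟨le_rfl, ?_, h2, h3⟩
      simp only [Nat.cast_zero, mul_zero]
      exact Real.rpow_nonneg (Nat.cast_nonneg _) _)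
  clear h
  obtain ⟨L', h, p, hL', hh, hx⟩ := hR
  let m : ℕ → ℕ := fun n => (n + c₁) ^ c₂
  let N : ℕ → ℕ := fun n => if (q (m n) : ℝ) * t (m n) ≤ (m n : ℝ) ^ (1 - ε) then
    t (m n) * min (q (m n)) (2 ^ t (m n)) + 1 else 2 ^ t (m n)
  -- the two cases
  have hcase : ∀ n, ((q (m n) : ℝ) * t (m n) ≤ (m n : ℝ) ^ (1 - ε) ∧ 1 ≤ q (m n) ∧
      N n = t (m n) * min (q (m n)) (2 ^ t (m n)) + 1 ∧
      2 * (N n * (4 * n + 6) + 3) + 1 ≤ m n) ∨ (N n = 2 ^ t (m n) ∧ N n ≤ m n ^ c ∧
        2 * (1 * (4 * n + 6) + 3) + 1 ≤ m n) := by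
    intro n
    obtain ⟨h1, ⟨_, h3⟩, h4⟩ := hc n
    by_cases hcs : (q (m n) : ℝ) * t (m n) ≤ (m n : ℝ) ^ (1 - ε)
    · left
      have e1 : q₂ ((n + c₁) ^ c₂) = q (m n) := if_pos hcs
      have e2 : t₂ ((n + c₁) ^ c₂) = t (m n) := if_pos hcs
      have e3 : N n = t (m n) * min (q (m n)) (2 ^ t (m n)) + 1 := if_pos hcs
      rw [e1] at h1 h4
      rw [e2] at h4
      refine ⟨hcs, h1, e3, ?_⟩
      rw [e3]
      exact h4
    · right
      have e1 : q₂ ((n + c₁) ^ c₂) = 1 := if_neg hcs
      have e2 : t₂ ((n + c₁) ^ c₂) = 0 := if_neg hcs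
      have e3 : N n = 2 ^ t (m n) := if_neg hcs
      rw [e1, e2] at h4
      refine ⟨e3, ?_, ?_⟩
      · rw [e3]
        exact h3.resolve_left hcs
      · simpa using h4
  have hNm : ∀ n, N n ≤ m n + m n ^ c := by
    intro n
    rcases hcase n with ⟨_, _, _, h1⟩ | ⟨_, h1, _⟩
    · have h2 : N n * 1 ≤ N n * (4 * n + 6) := Nat.mul_le_mul_left _ (by omega)
      omega
    · omega
  let B : ℕ → ℕ := fun n => N n * (4 * m n + 6) + 1
  let z : ℕ → ℕ := fun n => N n * (4 * N n + 2) + 1 + (N n * (4 * n + 6) + 1)
  let pm : Polynomial ℕ := (Polynomial.X + Polynomial.C c₁) ^ c₂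
  have hpm : ∀ n, pm.eval n = m n := by
    intro n
    simp only [pm, m, Polynomial.eval_pow, Polynomial.eval_add, Polynomial.eval_X,
      Polynomial.eval_C]
  let pN : Polynomial ℕ := pm + pm ^ c
  have hpN : ∀ n, N n ≤ pN.eval n := by
    intro n
    simp only [pN, Polynomial.eval_add, Polynomial.eval_pow, hpm]
    exact hNm n
  let pB : Polynomial ℕ := pN * (Polynomial.C 4 * pm + Polynomial.C 6) + Polynomial.C 1
  have hB : ∀ n, B n ≤ pB.eval n := by
    intro n
    simp only [pB, B, Polynomial.eval_add, Polynomial.eval_mul, Polynomial.eval_C, hpm]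
    have := hpN n
    gcongr
  let pz : Polynomial ℕ := pN * (Polynomial.C 4 * pN + Polynomial.C 2) + Polynomial.C 1 +
    (pN * (Polynomial.C 4 * Polynomial.X + Polynomial.C 6) + Polynomial.C 1)
  have hz : ∀ n, z n ≤ pz.eval n := by
    intro n
    simp only [pz, z, Polynomial.eval_add, Polynomial.eval_mul, Polynomial.eval_C,
      Polynomial.eval_X]
    have := hpN n
    gcongr
  refine phpoly_of_mc (Q := QU L') (ph_QU hL') (fun n => par h (B n) (m n) (z n))
    ((pB + Polynomial.C 1) * (Polynomial.C 4 * p.comp pB + Polynomial.C 2) + Polynomial.C 1 +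
      ((Polynomial.C 4 * pm + Polynomial.C 1) + (Polynomial.C 4 * pz + Polynomial.C 1) +
        Polynomial.C 1) + Polynomial.C 1)
    (fun n => ?_) N pN hpN (fun n l _ hl => qu_sound hx hRef l hl) (fun n X hX hXl => ?_)
  · unfold par
    rw [bits_length, sz_pair, sz_pair]
    have e1 := sz_listBool_le (List.replicate (m n) false)
    have e2 := sz_listBool_le (List.replicate (z n) false)
    rw [List.length_replicate] at e1 e2
    have e3 : sz ((List.range (B n + 1)).map h) ≤ (B n + 1) * (4 * p.eval (B n) + 1 + 1) + 1 := by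
      refine (sz_le_length_mul _ (4 * p.eval (B n) + 1) ?_).trans ?_
      · intro a ha
        obtain ⟨i, hi, rfl⟩ := List.mem_map.1 ha
        rw [List.mem_range] at hi
        have e1 := sz_listBool_le (h i)
        have e2 := hh i
        have e3 : p.eval i ≤ p.eval (B n) := eval_mono p (by omega)
        omega
      · rw [List.length_map, List.length_range]
    have e4 : (B n + 1) * (4 * p.eval (B n) + 1 + 1) ≤ (pB.eval n + 1) *
        (4 * p.eval (pB.eval n) + 2) := by
      have f1 := hB n
      have f2 : p.eval (B n) ≤ p.eval (pB.eval n) := eval_mono p f1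
      apply Nat.mul_le_mul <;> omega
    have e5 := hz n
    simp only [Polynomial.eval_add, Polynomial.eval_mul, Polynomial.eval_C, Polynomial.eval_comp,
      hpm]
    omega
  · obtain ⟨-, ⟨hD, -⟩, -⟩ := hc n
    have e1 : ∀ v : List Bool, v.length = N n → (X.zip v).map (fun e => e.1) = X := by
      intro v hv
      have := List.map_fst_zip (l₁ := X) (l₂ := v) (by rw [hXl, hv])
      exact this
    have e2 : ∀ v : List Bool, v.length = N n → (X.zip v).map (fun e => e.2) = v := by
      intro v hv
      have := List.map_snd_zip (l₁ := X) (l₂ := v) (by rw [hXl, hv])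
      exact this
    rcases hcase n with ⟨_, h1, h2, h3⟩ | ⟨h1, h2, h3⟩
    · obtain ⟨v, ws, hv, hw1, hw2, hw3, hw4⟩ := total_of_dense (n := n) h1 hD h2 h3 hX hXl
      refine ⟨v, hv, Or.inr (Or.inl ?_)⟩
      rw [qg_iff hx]
      have e3 : dL (bits ws) = ws := by
        unfold dL
        rw [unbits_bits]
        rfl
      rw [e1 v hv, e2 v hv]
      refine ⟨bits ws, ?_, ?_, ?_⟩
      · rw [bits_length]
        refine (sz_le_length_mul ws (4 * N n + 1) fun w hw => ?_).trans ?_
        · have := sz_listBool_le w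
          rw [hw2 w hw] at this
          exact this
        · show _ ≤ N n * (4 * N n + 2) + 1 + (N n * (4 * n + 6) + 1)
          have : ws.length * (4 * N n + 1 + 1) ≤ N n * (4 * N n + 2) :=
            Nat.mul_le_mul hw1 (by omega)
          omega
      · rw [e3, bits_length]
        refine Nat.lt_succ_of_le ((sz_lab_le _ (n := m n) ?_).trans ?_)
        · intro e he
          obtain ⟨w, hw, rfl⟩ := List.mem_map.1 he
          exact hw3 w hw
        · unfold lab
          rw [List.length_map]
          have h9 : ws.length * (4 * m n + 6) ≤ N n * (4 * m n + 6) :=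
            Nat.mul_le_mul_right (4 * m n + 6) hw1
          exact Nat.add_le_add_right h9 1
      · rw [e3]
        exact hw4
    · by_cases hn : X.Nodup
      · rw [h1] at hXl
        obtain ⟨v, l, hv, hl1, hl2, hl3, hl4⟩ := total_of_short hD h3 hX hXl hn
        refine ⟨v, by rw [h1]; exact hv, Or.inr (Or.inr ?_)⟩
        rw [qb_iff hx]
        rw [← h1] at hl1
        refine ⟨bits l, ?_, ?_, ?_, ?_⟩
        · rw [bits_length]
          refine (sz_lab_le l (n := n) fun e he => (hl3 e he).1).trans ?_
          show _ ≤ N n * (4 * N n + 2) + 1 + (N n * (4 * n + 6) + 1)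
          have := Nat.mul_le_mul_right (4 * n + 6) hl1
          omega
        · rw [dLab_bits]
          exact hl2
        · rw [dLab_bits, bits_length]
          refine Nat.lt_succ_of_le ((sz_lab_le _ (n := m n) ?_).trans ?_)
          · intro e he
            obtain ⟨e', he', rfl⟩ := List.mem_map.1 he
            exact (hl3 e' he').2
          · unfold slab
            rw [List.length_map]
            exact Nat.add_le_add_right (Nat.mul_le_mul_right _ hl1) 1
        · rw [dLab_bits]
          exact hl4
      · obtain ⟨v, hv, hinc⟩ := incons_dup hn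
        exact ⟨v, by rw [hv, hXl], Or.inl hinc⟩

end H70.PHS
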